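import Pool.Agent.Lib.MP_99e3ed_co.H87.LP
import Pool.Agent.Lib.MP_99e3ed_co.H64.RMono
import Pool.Agent.Lib.MP_99e3ed_co.H64.RSwitch
import Pool.Agent.Lib.MP_99e3ed_co.H64.RA
import Pool.Agent.Lib.MP_99e3ed_co.H84.FAT
import Pool.Agent.Lib.MP_99e3ed_co.H84.FAA

/-!
The claims of the induction, and the bounds for the vertex-deleted graphs.
-/

set_option autoImplicit false

open Finset
open Classical
open Pool.Agent.Lib.MP_99e3ed_co.H90
open Pool.Agent.Lib.MP_99e3ed_co.Ratio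
open Pool.Agent.MP_99e3ed_co

namespace Pool.Agent.Lib.MP_99e3ed_co.H87

variable {V : Type*} (G : SimpleGraph V)

/-- the claims of the induction: kind `T` for `s < (j-2) d`, kind `A` for `(j-2) d ≤ s` -/
def Claim (d j : ℕ) : Prop := ∀ (F : Finset V) (n s : ℕ), F.card = n + s →
  2 * (d * s) ≤ ed G F F → (∀ u ∈ F, (nb G F u).card ≤ d) →
  (s < (j - 2) * d → (cnt G F j : ℝ) * TT d (j - 1) n s ≤ TT d j n s * cnt G F (j - 1)) ∧
  ((j - 2) * d ≤ s → (cnt G F j : ℝ) * AA d (j - 1) n s ≤ AA d j n s * cnt G F (j - 1))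

lemma s_le_n (F : Finset V) (d n s : ℕ) (hd : 1 ≤ d) (hF : F.card = n + s)
    (hed : 2 * (d * s) ≤ ed G F F) (hdeg : ∀ u ∈ F, (nb G F u).card ≤ d) : s ≤ n := by
  have h1 : ed G F F ≤ F.card * d := ed_le G F F d hdeg
  rw [hF] at h1
  have h2 : 2 * (d * s) ≤ (n + s) * d := hed.trans h1
  have h3 : d * s ≤ d * n := by nlinarith
  exact Nat.le_of_mul_le_mul_left h3 (by omega)

/-- the vertex-deleted graph -/
lemma del_facts (F : Finset V) (v : V) (hv : v ∈ F) (d n s : ℕ) (hF : F.card = n + 1 + s)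
    (hed : 2 * (d * s) ≤ ed G F F) (hdeg : ∀ u ∈ F, (nb G F u).card ≤ d)
    (hδ : (nb G F v).card ≤ s) :
    (del G F v).card = n + (s - (nb G F v).card) ∧
    2 * (d * (s - (nb G F v).card)) ≤ ed G (del G F v) (del G F v) ∧
    (∀ u ∈ del G F v, (nb G (del G F v) u).card ≤ d) := by
  have h1 := card_del G F v hv
  have h2 := ed_del G F v hv d hdeg
  have hsub : del G F v ⊆ F := Finset.filter_subset _ _
  refine ⟨by omega, ?_, fun u hu => (nb_mono G hsub u).trans (hdeg u (hsub hu))⟩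
  have h3 : d * (s - (nb G F v).card) + d * (nb G F v).card = d * s := by
    rw [← Nat.mul_add]; congr 1; omega
  omega

/-- at multiples of `d` a claim of kind `A` is a claim of kind `T` -/
lemma kind_mul (d m q K : ℕ) (a b : ℝ) (hd : 1 ≤ d) (hq : d * q ≤ m)
    (h : a * AA d K m ((d * q : ℕ) : ℝ) ≤ AA d (K + 1) m ((d * q : ℕ) : ℝ) * b) :
    a * TT d K m ((d * q : ℕ) : ℝ) ≤ TT d (K + 1) m ((d * q : ℕ) : ℝ) * b := by
  rw [H64.aaMul d K m q hd hq, H64.aaMul d (K + 1) m q hd hq] at h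
  have h2 : (0 : ℝ) < 2 ^ q := by positivity
  have h3 : 2 ^ q * (a * TT d K m ((d * q : ℕ) : ℝ)) ≤
      2 ^ q * (TT d (K + 1) m ((d * q : ℕ) : ℝ) * b) := by linarith
  exact le_of_mul_le_mul_left h3 h2

/-- positivity of `A_K(m,s)` in the domain of the claims of level `K+1` -/
lemma AA_pos' (d K m s : ℕ) (hd : 3 ≤ d) (hK : 1 ≤ K) (hs1 : 1 ≤ s) (hs : (K - 1) * d ≤ s)
    (hsm : s ≤ m) (hm : (K - 1) * d + 1 ≤ m) : 0 < AA d K (m : ℝ) s := by
  rcases Nat.lt_or_ge K 2 with h | h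
  · obtain rfl : K = 1 := by omega
    rw [H64.AA_one]
    have : (1 : ℝ) ≤ s := by exact_mod_cast hs1
    have : (0 : ℝ) ≤ m := Nat.cast_nonneg _
    linarith
  · refine H64.aaPos d K m s hd h ?_ (by exact_mod_cast hsm) ?_
    · have h1 : ((K - 1 : ℕ) : ℝ) = (K : ℝ) - 1 := by
        rw [Nat.cast_sub (by omega)]; simp
      have h2 : (((K - 1) * d : ℕ) : ℝ) ≤ s := by exact_mod_cast hs
      rw [Nat.cast_mul, h1] at h2
      have : (0 : ℝ) ≤ d := Nat.cast_nonneg _
      linarith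
    · have h1 : ((K - 1 : ℕ) : ℝ) = (K : ℝ) - 1 := by
        rw [Nat.cast_sub (by omega)]; simp
      have h2 : (((K - 1) * d + 1 : ℕ) : ℝ) ≤ m := by exact_mod_cast hm
      rw [Nat.cast_add, Nat.cast_mul, h1] at h2
      push_cast at h2
      linarith

/-- from the claim of level `K+1` to the ratio of kind `T` -/
lemma ratioT (d K : ℕ) (hd : 3 ≤ d) (hK : 1 ≤ K) (hC : Claim G d (K + 1)) (F : Finset V)
    (m s : ℕ) (hF : F.card = m + s) (hed : 2 * (d * s) ≤ ed G F F)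
    (hdeg : ∀ u ∈ F, (nb G F u).card ≤ d) (hs1 : 1 ≤ s) (hs : s < K * d) :
    (cnt G F (K + 1) : ℝ) * TT d K m s ≤ TT d (K + 1) m s * cnt G F K := by
  have hsm := s_le_n G F d m s (by omega) hF hed hdeg
  obtain ⟨c1, c2⟩ := hC F m s hF hed hdeg
  simp only [Nat.add_sub_cancel] at c1 c2
  have e1 : K + 1 - 2 = K - 1 := by omega
  rw [e1] at c1 c2
  rcases Nat.lt_or_ge s ((K - 1) * d) with h | h
  · exact c1 h
  · have c3 := c2 h
    rcases h.eq_or_lt with h1 | h1
    · have e2 : s = d * (K - 1) := by rw [← h1, Nat.mul_comm]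
      rw [e2] at c3 ⊢
      exact kind_mul d m (K - 1) K _ _ (by omega) (by rw [← e2]; exact hsm) c3
    · have hpos := AA_pos' d K m s hd hK hs1 h hsm (by omega)
      have hsw := H64.switch d (K + 1) m s hd (by omega) (by rw [e1]; exact h)
        (by simpa using hs) hsm hs1
      simp only [Nat.add_sub_cancel] at hsw
      have hT : 0 ≤ TT d K m s := by
        rcases Nat.lt_or_ge m K with h2 | h2
        · rw [H84.ttZero d K m s (by omega) h2]
        · exact (H84.ttPos d K m s (by omega) h2 (by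
            have : (0 : ℝ) ≤ d := Nat.cast_nonneg _
            have : (0 : ℝ) ≤ s := Nat.cast_nonneg _
            linarith) (by exact_mod_cast hs)).le
      have hc0 : (0 : ℝ) ≤ cnt G F K := Nat.cast_nonneg _
      have h5 := mul_le_mul_of_nonneg_right c3 hT
      have h6 := mul_le_mul_of_nonneg_right hsw hc0
      refine le_of_mul_le_mul_left (a := AA d K (m : ℝ) s) ?_ hpos
      linarith

/-- the ratio of kind `A` (also for `s = 0`) -/
lemma ratioA (d K : ℕ) (hC : Claim G d (K + 1)) (F : Finset V)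
    (m s : ℕ) (hF : F.card = m + s) (hed : 2 * (d * s) ≤ ed G F F)
    (hdeg : ∀ u ∈ F, (nb G F u).card ≤ d) (hs : (K - 1) * d ≤ s) :
    (cnt G F (K + 1) : ℝ) * AA d K m s ≤ AA d (K + 1) m s * cnt G F K := by
  obtain ⟨_, c2⟩ := hC F m s hF hed hdeg
  simp only [Nat.add_sub_cancel] at c2
  have e1 : K + 1 - 2 = K - 1 := by omega
  rw [e1] at c2
  exact c2 hs

/-- from a ratio to a bound for `cnt (F \ N(v))` -/
lemma ratio_to_vertex (F : Finset V) (v : V) (hv : v ∈ F) (K : ℕ) (a b t g : ℝ) (ht : 0 < t)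
    (hpas : t = b + a) (hg : g = a) 
    (hr : (cnt G (del G F v) (K + 1) : ℝ) * a ≤ b * cnt G (del G F v) K) :
    g / t * cnt G (F \ nb G F v) (K + 1) ≤ cnt G (del G F v) K := by
  rw [cnt_sdiff_nb G F v hv K]
  push_cast
  rw [div_mul_eq_mul_div, div_le_iff₀ ht, hg, hpas]
  nlinarith

end Pool.Agent.Lib.MP_99e3ed_co.H87
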