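import Pool.Agent.Lib.MP_99e3ed_co.H87.Main
import Pool.Agent.Lib.MP_99e3ed_co.H90.Kahn
import Pool.Agent.Lib.MP_99e3ed_co.H54.Final

/-!
The ratio form of Kahn's conjecture, modulo `FB`.
-/

set_option autoImplicit false

open Finset
open Classical
open Pool.Agent.Lib.MP_99e3ed_co.H90
open Pool.Agent.Lib.MP_99e3ed_co.Ratio
open Pool.Agent.MP_99e3ed_co

namespace Pool.Agent.Lib.MP_99e3ed_co.H87

section general

variable {V : Type} [Fintype V] (G : SimpleGraph V)

lemma clique_card (inst : DecidableEq V) (inst2 : DecidableRel Gᶜ.Adj) (k : ℕ) :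
    (Gᶜ.cliqueFinset k).card = cnt G univ k := by
  rw [← card_IS]
  congr 1
  ext I
  rw [SimpleGraph.mem_cliqueFinset_iff, mem_IS]
  constructor
  · intro h
    exact ⟨⟨Finset.subset_univ _, h.card_eq⟩, (SimpleGraph.isClique_compl G).1 h.isClique⟩
  · intro h
    exact ⟨(SimpleGraph.isClique_compl G).2 h.2, h.1.2⟩

lemma ic_card (k : ℕ) : ic G k = cnt G univ k := by
  unfold ic
  rw [← card_IS]
  congr 1
  ext I
  rw [SimpleGraph.mem_indepSetFinset_iff, mem_IS]
  exact ⟨fun h => ⟨⟨Finset.subset_univ _, h.card_eq⟩, h.isIndepSet⟩, fun h => ⟨h.2, h.1.2⟩⟩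

lemma nb_univ_card {d : ℕ} (hG : G.IsRegularOfDegree d) (v : V) : (H90.nb G univ v).card = d := by
  have h := hG v
  rw [← h, ← SimpleGraph.card_neighborFinset_eq_degree]
  congr 1
  ext u
  rw [mem_nb, SimpleGraph.mem_neighborFinset]
  simp

/-- perfect matchings: every independent set has the same number of extensions -/
lemma one_regular (hG : G.IsRegularOfDegree 1) (k : ℕ) :
    (k + 1) * cnt G univ (k + 1) + 2 * k * cnt G univ k = Fintype.card V * cnt G univ k := by
  have h1 : ∀ v : V, ∃ w, H90.nb G univ v = {w} := fun v =>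
    Finset.card_eq_one.1 (nb_univ_card G hG v)
  choose f hf using h1
  have hadj : ∀ v w, G.Adj v w ↔ w = f v := by
    intro v w
    have : w ∈ H90.nb G univ v ↔ w = f v := by rw [hf]; simp
    rw [← this, mem_nb]
    simp
  have hff : ∀ v, f (f v) = v := by
    intro v
    have h2 : G.Adj v (f v) := (hadj v (f v)).2 rfl
    exact ((hadj (f v) v).1 h2.symm).symm
  have hinj : Function.Injective f := fun a b h => by rw [← hff a, ← hff b, h]
  have key : ∀ J ∈ IS G univ k, (ext G univ J).card + 2 * k = Fintype.card V := by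
    intro J hJ
    rw [mem_IS, indep_iff] at hJ
    have e : (univ : Finset V) = ext G univ J ∪ (J ∪ J.image f) := by
      ext y
      simp only [Finset.mem_univ, Finset.mem_union, mem_ext, Finset.mem_image, true_and, true_iff]
      by_cases hy : y ∈ J
      · exact Or.inr (Or.inl hy)
      · by_cases hy2 : ∃ u ∈ J, G.Adj u y
        · obtain ⟨u, hu, huy⟩ := hy2
          exact Or.inr (Or.inr ⟨u, hu, ((hadj u y).1 huy).symm⟩)
        · push Not at hy2
          exact Or.inl ⟨hy, hy2⟩
    have d1 : Disjoint (ext G univ J) (J ∪ J.image f) := by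
      rw [Finset.disjoint_left]
      intro y hy hy'
      rw [mem_ext] at hy
      rw [Finset.mem_union, Finset.mem_image] at hy'
      rcases hy' with h | ⟨u, hu, huy⟩
      · exact hy.2.1 h
      · exact hy.2.2 u hu ((hadj u y).2 huy.symm)
    have d2 : Disjoint J (J.image f) := by
      rw [Finset.disjoint_left]
      intro y hy hy'
      rw [Finset.mem_image] at hy'
      obtain ⟨u, hu, huy⟩ := hy'
      exact hJ.2 u hu y hy ((hadj u y).2 huy.symm)
    have hc : (univ : Finset V).card = (ext G univ J).card + (J.card + J.card) := by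
      conv_lhs => rw [e]
      rw [Finset.card_union_of_disjoint d1, Finset.card_union_of_disjoint d2,
        Finset.card_image_of_injective _ hinj]
    rw [Finset.card_univ, hJ.1.2] at hc
    omega
  have h2 : ∑ J ∈ IS G univ k, ((ext G univ J).card + 2 * k) =
      ∑ J ∈ IS G univ k, Fintype.card V := Finset.sum_congr rfl key
  rw [Finset.sum_add_distrib, sum_card_ext, Finset.sum_const, Finset.sum_const, card_IS,
    smul_eq_mul, smul_eq_mul] at h2
  linarith

end general

/-- the ratio form for `d ≥ 3` -/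
theorem ratio_three (hFB : FB) (d m : ℕ) (hd : 3 ≤ d) (G : SimpleGraph (Fin (2 * d * m)))
    (hG : G.IsRegularOfDegree d) (K : ℕ) :
    cnt G univ (K + 1) * cnt (kddUnion d m) univ K ≤
      cnt (kddUnion d m) univ (K + 1) * cnt G univ K := by
  have hF : (univ : Finset (Fin (2 * d * m))).card = d * m + d * m := by
    rw [Finset.card_univ, Fintype.card_fin]; ring
  have hdeg : ∀ u ∈ (univ : Finset (Fin (2 * d * m))), (H90.nb G univ u).card ≤ d :=
    fun u _ => (nb_univ_card G hG u).le
  have hed : 2 * (d * (d * m)) ≤ ed G univ univ := by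
    rw [ed_eq, Finset.sum_congr rfl (fun v _ => nb_univ_card G hG v), Finset.sum_const,
      smul_eq_mul, hF]
    apply le_of_eq; ring
  obtain ⟨c1, c2⟩ := claims G hFB d hd (K + 1) (by omega) univ (d * m) (d * m) hF hed hdeg
  have e1 : K + 1 - 1 = K := by omega
  rw [e1] at c1 c2
  have hT : (cnt G univ (K + 1) : ℝ) * TT d K (d * m) ((d * m : ℕ) : ℝ) ≤
      TT d (K + 1) (d * m) ((d * m : ℕ) : ℝ) * cnt G univ K := by
    rcases Nat.lt_or_ge (d * m) ((K + 1 - 2) * d) with h | h
    · exact c1 h
    · exact kind_mul d (d * m) m K _ _ (by omega) le_rfl (c2 h)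
  have hph : ∀ j : ℕ, (cnt (kddUnion d m) univ j : ℝ) =
      2 ^ m * TT d j (d * m) ((d * m : ℕ) : ℝ) := by
    intro j
    rw [← H64.ttph d j (d * m) m (by omega) le_rfl, ← kdd_cnt d m (by omega) j]
    simp
  have h2 : (0 : ℝ) < 2 ^ m := by positivity
  have h3 : (cnt G univ (K + 1) : ℝ) * cnt (kddUnion d m) univ K ≤
      cnt (kddUnion d m) univ (K + 1) * cnt G univ K := by
    rw [hph, hph]
    have := mul_le_mul_of_nonneg_left hT h2.le
    linarith
  exact_mod_cast h3

/-- the ratio form, modulo `FB` -/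
theorem ratio_form (hFB : FB) : ∀ d m : ℕ, ∀ G : SimpleGraph (Fin (2 * d * m)),
    G.IsRegularOfDegree d → ∀ k : ℕ, 1 ≤ k → k ≤ 2 * d * m →
      (Gᶜ.cliqueFinset k).card *
          ((SimpleGraph.fromRel
              (fun x y : Fin m × Bool × Fin d => x.1 = y.1 ∧ x.2.1 ≠ y.2.1))ᶜ.cliqueFinset
            (k - 1)).card ≤
        ((SimpleGraph.fromRel
              (fun x y : Fin m × Bool × Fin d => x.1 = y.1 ∧ x.2.1 ≠ y.2.1))ᶜ.cliqueFinset
            k).card *
          (Gᶜ.cliqueFinset (k - 1)).card := by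
  intro d m G hG k hk1 hk2
  obtain ⟨K, rfl⟩ : ∃ K, k = K + 1 := ⟨k - 1, by omega⟩
  rw [Nat.add_sub_cancel]
  rw [clique_card, clique_card, clique_card, clique_card]
  change cnt G univ (K + 1) * cnt (kddUnion d m) univ K ≤
    cnt (kddUnion d m) univ (K + 1) * cnt G univ K
  have hd0 : d ≠ 0 := by
    rintro rfl
    simp at hk2
  rcases Nat.lt_or_ge d 3 with hd | hd
  · rcases Nat.lt_or_ge d 2 with hd' | hd'
    · obtain rfl : d = 1 := by omega
      have h1 := one_regular G hG K
      have h2 := one_regular (kddUnion 1 m) (kdd_regular 1 m) K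
      rw [Fintype.card_fin] at h1
      rw [kdd_card 1 m] at h2
      apply le_of_eq
      set a := cnt G univ (K + 1)
      set b := cnt G univ K
      set a' := cnt (kddUnion 1 m) univ (K + 1)
      set b' := cnt (kddUnion 1 m) univ K
      have h3 : (K + 1) * (a * b') = (K + 1) * (a' * b) := by
        have e1 : (K + 1) * a * b' + 2 * K * b * b' = 2 * 1 * m * b * b' := by
          rw [← add_mul, h1]
        have e2 : (K + 1) * a' * b + 2 * K * b' * b = 2 * 1 * m * b' * b := by
          rw [← add_mul, h2]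
        have e3 : 2 * K * b * b' = 2 * K * b' * b := by ring
        have e4 : 2 * 1 * m * b * b' = 2 * 1 * m * b' * b := by ring
        have e5 : (K + 1) * a * b' = (K + 1) * a' * b := by omega
        calc (K + 1) * (a * b') = (K + 1) * a * b' := by ring
          _ = (K + 1) * a' * b := e5
          _ = (K + 1) * (a' * b) := by ring
      exact Nat.eq_of_mul_eq_mul_left (by omega) h3
    · obtain rfl : d = 2 := by omega
      have h := H54.lr_two_regular m (Fin (2 * 2 * m)) (by rw [Fintype.card_fin]) G hG K (K + 1)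
        (by omega)
      rw [ic_card, ic_card, ic_card, ic_card] at h
      linarith
  · exact ratio_three hFB d m hd G hG K

end Pool.Agent.Lib.MP_99e3ed_co.H87
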