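import Pool.Agent.Lib.MP_99e3ed_co.H87.ZGraph

/-!
The abstract LP step.
-/

set_option autoImplicit false

open Finset
open Classical
open Pool.Agent.Lib.MP_99e3ed_co.H90
open Pool.Agent.Lib.MP_99e3ed_co.Ratio

namespace Pool.Agent.Lib.MP_99e3ed_co.H87

variable {V : Type*} (G : SimpleGraph V)

/-- removing the neighbours of `v` (but not `v`) -/
lemma cnt_sdiff_nb (F : Finset V) (v : V) (hv : v ∈ F) (k : ℕ) :
    cnt G (F \ nb G F v) (k + 1) = cnt G (del G F v) (k + 1) + cnt G (del G F v) k := by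
  have hv' : v ∈ F \ nb G F v := by
    rw [Finset.mem_sdiff, mem_nb]
    exact ⟨hv, fun h => G.loopless.irrefl _ h.2⟩
  have e1 : (F \ nb G F v).erase v = del G F v := by
    ext u
    rw [Finset.mem_erase, Finset.mem_sdiff, mem_nb, mem_del]
    tauto
  have e2 : del G (F \ nb G F v) v = del G F v := by
    ext u
    rw [mem_del, Finset.mem_sdiff, mem_nb, mem_del]
    tauto
  rw [cnt_erase G _ v hv' k, e1, e2]

lemma sum_sdiff_nb (F : Finset V) (k : ℕ) :
    ∑ v ∈ F, cnt G (F \ nb G F v) (k + 1) =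
      (k + 2) * cnt G F (k + 2) + (k + 1) * cnt G F (k + 1) := by
  rw [Finset.sum_congr rfl (fun v hv => cnt_sdiff_nb G F v hv k), Finset.sum_add_distrib,
    ← cnt_succ G F (k + 1), ← cnt_succ G F k]

/-- the number of edges bounds the size of an independent set -/
lemma alpha (F : Finset V) (d n s j : ℕ) (hd : 1 ≤ d) (hF : F.card = n + s)
    (hed : 2 * (d * s) ≤ ed G F F) (hdeg : ∀ u ∈ F, (nb G F u).card ≤ d) (hj : n < j) :
    cnt G F j = 0 := by
  rw [← card_IS, Finset.card_eq_zero, Finset.eq_empty_iff_forall_notMem]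
  intro I hI
  rw [mem_IS] at hI
  obtain ⟨⟨hIF, hIc⟩, hind⟩ := hI
  rw [indep_iff] at hind
  have hsplit : ∀ A : Finset V, ed G A F = ed G A I + ed G A (F \ I) := by
    intro A
    have : F = I ∪ (F \ I) := by
      rw [Finset.union_sdiff_of_subset hIF]
    conv_lhs => rw [this]
    rw [ed_union G A _ _ Finset.disjoint_sdiff]
  have hII : ed G I I = 0 := ed_eq_zero G _ _ fun a ha b hb => hind a ha b hb
  have a1 := hsplit F
  have a2 := hsplit I
  have a3 := hsplit (F \ I)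
  have a4 : ed G F I = ed G I F := ed_comm G _ _
  have a5 : ed G F (F \ I) = ed G (F \ I) F := ed_comm G _ _
  have a6 : ed G (F \ I) I = ed G I (F \ I) := ed_comm G _ _
  have a7 : ed G (F \ I) F ≤ (F \ I).card * d := ed_le G _ _ d fun u hu =>
    hdeg u (Finset.mem_sdiff.1 hu).1
  have a8 : (F \ I).card + I.card = F.card := Finset.card_sdiff_add_card_eq_card hIF
  have a9 : ed G F F ≤ 2 * ((F \ I).card * d) := by omega
  have a10 : d * s ≤ d * (F \ I).card := by nlinarith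
  have a11 : s ≤ (F \ I).card := Nat.le_of_mul_le_mul_left a10 (by omega)
  omega

/-- the abstract LP step -/
lemma lp (F : Finset V) (d k n s : ℕ) (hd : 1 ≤ d) (hF : F.card = n + s)
    (c t tm g gm X1 : ℝ) (ht : 0 < t) (htm : 0 < tm) (hgm : 0 < gm)
    (rec1 : ((k : ℝ) + 1) * t = ((n : ℝ) - s) * g + c * s * gm)
    (rec2 : ((k : ℝ) + 2) * X1 = ((n : ℝ) - s - (k + 1)) * t + c * s * tm)
    (hm : ((n : ℝ) + s - (ed G F F : ℝ) / d) * (gm / tm - g / t) ≤
      ((n : ℝ) - s) * (gm / tm - g / t))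
    (hv : ∀ v ∈ F, gm / tm * cnt G (F \ nb G F v) (k + 1) ≤
      cnt G (del G F v) k + (1 - ((nb G F v).card : ℝ) / d) * (gm / tm - g / t) *
        cnt G F (k + 1)) :
    (cnt G F (k + 2) : ℝ) * t ≤ X1 * cnt G F (k + 1) := by
  have hdr : (0 : ℝ) < d := by exact_mod_cast hd
  set ik : ℝ := (cnt G F (k + 1) : ℝ) with hik
  set ik1 : ℝ := (cnt G F (k + 2) : ℝ) with hik1
  have hik0 : 0 ≤ ik := Nat.cast_nonneg _
  have s1 : ∑ v ∈ F, (cnt G (F \ nb G F v) (k + 1) : ℝ) = (k + 2) * ik1 + (k + 1) * ik := by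
    have h := sum_sdiff_nb G F k
    have h' : ((∑ v ∈ F, cnt G (F \ nb G F v) (k + 1) : ℕ) : ℝ) =
        (((k + 2) * cnt G F (k + 2) + (k + 1) * cnt G F (k + 1) : ℕ) : ℝ) := by rw [h]
    push_cast at h'
    exact h'
  have s2 : ∑ v ∈ F, (cnt G (del G F v) k : ℝ) = (k + 1) * ik := by
    have h := cnt_succ G F k
    have h' : (((k + 1) * cnt G F (k + 1) : ℕ) : ℝ) =
        ((∑ v ∈ F, cnt G (del G F v) k : ℕ) : ℝ) := by rw [h]
    push_cast at h'
    exact h'.symm
  have s3 : ∑ v ∈ F, (1 - ((nb G F v).card : ℝ) / d) = (n : ℝ) + s - (ed G F F : ℝ) / d := by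
    rw [Finset.sum_sub_distrib, Finset.sum_const, hF, nsmul_eq_mul, mul_one, ← Finset.sum_div,
      ed_eq]
    push_cast
    ring
  have hsum := Finset.sum_le_sum hv
  rw [Finset.sum_add_distrib, ← Finset.mul_sum, s1, s2, ← Finset.sum_mul, ← Finset.sum_mul, s3]
    at hsum
  have h1 : gm / tm * ((k + 2) * ik1 + (k + 1) * ik) ≤
      (k + 1) * ik + ((n : ℝ) - s) * (gm / tm - g / t) * ik :=
    hsum.trans (by linarith [mul_le_mul_of_nonneg_right hm hik0])
  -- multiply by `t * tm`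
  have h2 : gm * t * ((k + 2) * ik1 + (k + 1) * ik) ≤
      ((k + 1) * (t * tm) + ((n : ℝ) - s) * (gm * t - g * tm)) * ik := by
    have h3 := mul_le_mul_of_nonneg_right h1 (mul_pos ht htm).le
    have e1 : gm / tm * ((k + 2) * ik1 + (k + 1) * ik) * (t * tm) =
        gm * t * ((k + 2) * ik1 + (k + 1) * ik) := by
      field_simp
    have e2 : ((k + 1) * ik + ((n : ℝ) - s) * (gm / tm - g / t) * ik) * (t * tm) =
        ((k + 1) * (t * tm) + ((n : ℝ) - s) * (gm * t - g * tm)) * ik := by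
      field_simp
    rw [e1, e2] at h3
    exact h3
  have h4 : ((k : ℝ) + 1) * (t * tm) + ((n : ℝ) - s) * (gm * t - g * tm) =
      gm * (c * s * tm + ((n : ℝ) - s) * t) := by
    linear_combination tm * rec1
  rw [h4] at h2
  have h5 : gm * (t * ((k + 2) * ik1)) ≤ gm * ((((k : ℝ) + 2) * X1) * ik) := by
    rw [rec2]
    linarith
  have h6 := le_of_mul_le_mul_left h5 hgm
  have hk2 : (0 : ℝ) < (k : ℝ) + 2 := by positivity
  have h7 : ((k : ℝ) + 2) * (ik1 * t) ≤ (k + 2) * (X1 * ik) := by linarith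
  exact le_of_mul_le_mul_left h7 hk2

/-- the per-vertex inequality from a chord inequality -/
lemma vertex_chord {Gm G0 Gp ze mu Z x ik : ℝ} (hZ0 : 0 ≤ Z) (hx : Gp * Z ≤ x) (hze : Z ≤ ze * ik)
    (hmono : G0 ≤ Gm) (hmu : 0 ≤ mu) (hik : 0 ≤ ik)
    (hch : ze * (Gm - Gp) ≤ mu * (Gm - G0)) :
    Gm * Z ≤ x + mu * (Gm - G0) * ik := by
  rcases le_total Gm Gp with h | h
  · have h1 : Gm * Z ≤ Gp * Z := mul_le_mul_of_nonneg_right h hZ0
    have h2 : 0 ≤ mu * (Gm - G0) * ik := mul_nonneg (mul_nonneg hmu (by linarith)) hik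
    linarith
  · have h1 : (Gm - Gp) * Z ≤ (Gm - Gp) * (ze * ik) :=
      mul_le_mul_of_nonneg_left hze (by linarith)
    have h2 : ze * (Gm - Gp) * ik ≤ mu * (Gm - G0) * ik := mul_le_mul_of_nonneg_right hch hik
    linarith

end Pool.Agent.Lib.MP_99e3ed_co.H87
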