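import Pool.Agent.Lib.MP_99e3ed_co.H90.Count

/-!
The Moon–Moser inequality for the number `cnt G S j` of independent sets of size `j` inside `S`.
-/

set_option autoImplicit false

open Finset
open Classical
open Pool.Agent.Lib.MP_99e3ed_co.H90

namespace Pool.Agent.Lib.MP_99e3ed_co.H87

variable {V : Type*} (G : SimpleGraph V)

/-- independent sets of size `j` in `S` -/
noncomputable def IS (S : Finset V) (j : ℕ) : Finset (Finset V) :=
  (S.powersetCard j).filter (fun I : Finset V => G.IsIndepSet (I : Set V))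

lemma card_IS (S : Finset V) (j : ℕ) : (IS G S j).card = cnt G S j := rfl

/-- the vertices which extend `J` -/
noncomputable def ext (S J : Finset V) : Finset V :=
  S.filter (fun y => y ∉ J ∧ ∀ u ∈ J, ¬ G.Adj u y)

lemma mem_IS {S I : Finset V} {j : ℕ} :
    I ∈ IS G S j ↔ (I ⊆ S ∧ I.card = j) ∧ G.IsIndepSet (I : Set V) := by
  unfold IS
  rw [Finset.mem_filter, Finset.mem_powersetCard]

lemma mem_ext {S J : Finset V} {y : V} :
    y ∈ ext G S J ↔ y ∈ S ∧ y ∉ J ∧ ∀ u ∈ J, ¬ G.Adj u y := by
  unfold ext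
  rw [Finset.mem_filter]

lemma indep_iff {I : Finset V} : G.IsIndepSet (I : Set V) ↔ ∀ a ∈ I, ∀ b ∈ I, ¬ G.Adj a b := by
  constructor
  · intro h a ha b hb hab
    exact h (by exact_mod_cast ha) (by exact_mod_cast hb) hab.ne hab
  · intro h a ha b hb _
    exact h a (by exact_mod_cast ha) b (by exact_mod_cast hb)

/-- change of variables `(J, x) ↔ (I, x)` with `I = J ∪ {x}` -/
lemma sum_ext (S : Finset V) (j : ℕ) (f : Finset V → V → ℕ) :
    ∑ J ∈ IS G S j, ∑ x ∈ ext G S J, f J x =
      ∑ I ∈ IS G S (j + 1), ∑ x ∈ I, f (I.erase x) x := by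
  rw [Finset.sum_sigma', Finset.sum_sigma']
  refine Finset.sum_bij' (fun p _ => ⟨insert p.2 p.1, p.2⟩) (fun p _ => ⟨p.1.erase p.2, p.2⟩)
    ?_ ?_ ?_ ?_ ?_
  · rintro ⟨J, x⟩ h
    simp only [Finset.mem_sigma, mem_IS, mem_ext] at h ⊢
    obtain ⟨⟨⟨h1, h2⟩, h3⟩, h4, h5, h6⟩ := h
    refine ⟨⟨⟨?_, ?_⟩, ?_⟩, Finset.mem_insert_self _ _⟩
    · intro u hu
      rw [Finset.mem_insert] at hu
      rcases hu with rfl | hu
      · exact h4
      · exact h1 hu
    · rw [Finset.card_insert_of_notMem h5, h2]
    · rw [indep_iff] at h3 ⊢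
      intro a ha b hb
      rw [Finset.mem_insert] at ha hb
      rcases ha with rfl | ha <;> rcases hb with rfl | hb
      · exact G.loopless.irrefl _
      · intro hab; exact h6 b hb hab.symm
      · exact h6 a ha
      · exact h3 a ha b hb
  · rintro ⟨I, x⟩ h
    simp only [Finset.mem_sigma, mem_IS, mem_ext] at h ⊢
    obtain ⟨⟨⟨h1, h2⟩, h3⟩, h4⟩ := h
    rw [indep_iff] at h3
    refine ⟨⟨⟨?_, ?_⟩, ?_⟩, h1 h4, Finset.notMem_erase _ _, ?_⟩
    · exact (Finset.erase_subset _ _).trans h1
    · rw [Finset.card_erase_of_mem h4, h2]; rfl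
    · rw [indep_iff]
      intro a ha b hb
      exact h3 a (Finset.mem_of_mem_erase ha) b (Finset.mem_of_mem_erase hb)
    · intro u hu
      exact h3 u (Finset.mem_of_mem_erase hu) x h4
  · rintro ⟨J, x⟩ h
    simp only [Finset.mem_sigma, mem_IS, mem_ext] at h
    simp only [Finset.erase_insert h.2.2.1]
  · rintro ⟨I, x⟩ h
    simp only [Finset.mem_sigma] at h
    simp only [Finset.insert_erase h.2]
  · rintro ⟨J, x⟩ h
    simp only [Finset.mem_sigma, mem_IS, mem_ext] at h
    simp only [Finset.erase_insert h.2.2.1]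

lemma sum_card_ext (S : Finset V) (j : ℕ) :
    ∑ J ∈ IS G S j, (ext G S J).card = (j + 1) * cnt G S (j + 1) := by
  have h := sum_ext G S j (fun _ _ => 1)
  simp only [Finset.sum_const, smul_eq_mul, mul_one] at h
  rw [h, ← card_IS, mul_comm, ← smul_eq_mul, ← Finset.sum_const]
  refine Finset.sum_congr rfl fun I hI => ?_
  rw [mem_IS] at hI
  exact hI.1.2

/-- trivial upper bound -/
lemma cnt_upper (S : Finset V) (j : ℕ) :
    (j + 1) * cnt G S (j + 1) + j * cnt G S j ≤ S.card * cnt G S j := by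
  rw [← sum_card_ext, ← card_IS, mul_comm j, mul_comm S.card, ← smul_eq_mul (IS G S j).card,
    ← smul_eq_mul (IS G S j).card, ← Finset.sum_const, ← Finset.sum_const, ← Finset.sum_add_distrib]
  refine Finset.sum_le_sum fun J hJ => ?_
  rw [mem_IS] at hJ
  have h1 : Disjoint (ext G S J) J := by
    rw [Finset.disjoint_left]
    intro y hy hyJ
    exact (mem_ext G |>.1 hy).2.1 hyJ
  rw [← hJ.1.2, ← Finset.card_union_of_disjoint h1]
  refine Finset.card_le_card ?_
  intro y hy
  rw [Finset.mem_union] at hy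
  rcases hy with hy | hy
  · exact (mem_ext G |>.1 hy).1
  · exact hJ.1.1 hy

lemma sum_erase_le (S I : Finset V) (j : ℕ) (hI : I ∈ IS G S (j + 1)) :
    ∑ x ∈ I, (ext G S (I.erase x)).card ≤ S.card + j * (ext G S I).card := by
  have h1 : ∀ x ∈ I, (ext G S (I.erase x)).card =
      ∑ y ∈ S, if y ∈ ext G S (I.erase x) then 1 else 0 := by
    intro x _
    rw [← Finset.card_filter]
    congr 1
    ext y
    rw [Finset.mem_filter]
    exact ⟨fun h => ⟨(mem_ext G |>.1 h).1, h⟩, fun h => h.2⟩
  rw [Finset.sum_congr rfl h1, Finset.sum_comm]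
  have h2 : S.card + j * (ext G S I).card = ∑ y ∈ S, (1 + if y ∈ ext G S I then j else 0) := by
    rw [Finset.sum_add_distrib, Finset.sum_const, smul_eq_mul, mul_one]
    congr 1
    rw [← Finset.sum_filter, Finset.sum_const, smul_eq_mul, mul_comm]
    congr 2
    ext y
    rw [Finset.mem_filter]
    exact ⟨fun h => ⟨(mem_ext G |>.1 h).1, h⟩, fun h => h.2⟩
  rw [h2]
  refine Finset.sum_le_sum fun y hy => ?_
  rw [← Finset.card_filter]
  rw [mem_IS] at hI
  split_ifs with hyI
  · refine (Finset.card_filter_le _ _).trans ?_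
    rw [hI.1.2]; omega
  · rw [add_zero, Finset.card_le_one]
    intro x1 hx1 x2 hx2
    simp only [Finset.mem_filter, mem_ext] at hx1 hx2
    rw [mem_ext] at hyI
    by_cases hy1 : y ∈ I
    · have e1 : y = x1 := by
        by_contra h
        exact hx1.2.2.1 (Finset.mem_erase.2 ⟨h, hy1⟩)
      have e2 : y = x2 := by
        by_contra h
        exact hx2.2.2.1 (Finset.mem_erase.2 ⟨h, hy1⟩)
      exact e1.symm.trans e2
    · have : ∃ u ∈ I, G.Adj u y := by
        by_contra h
        push Not at h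
        exact hyI ⟨hy, hy1, h⟩
      obtain ⟨u, hu, huy⟩ := this
      have e1 : u = x1 := by
        by_contra h
        exact hx1.2.2.2 u (Finset.mem_erase.2 ⟨h, hu⟩) huy
      have e2 : u = x2 := by
        by_contra h
        exact hx2.2.2.2 u (Finset.mem_erase.2 ⟨h, hu⟩) huy
      exact e1.symm.trans e2

/-- second moment of the number of extensions -/
lemma sum_sq_ext (S : Finset V) (j : ℕ) :
    ∑ J ∈ IS G S j, (ext G S J).card ^ 2 ≤
      S.card * cnt G S (j + 1) + j * (j + 2) * cnt G S (j + 2) := by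
  have h := sum_ext G S j (fun J _ => (ext G S J).card)
  simp only [Finset.sum_const, smul_eq_mul] at h
  have h1 : ∑ J ∈ IS G S j, (ext G S J).card ^ 2 =
      ∑ J ∈ IS G S j, (ext G S J).card * (ext G S J).card :=
    Finset.sum_congr rfl fun J _ => by rw [sq]
  rw [h1, h]
  calc ∑ I ∈ IS G S (j + 1), ∑ x ∈ I, (ext G S (I.erase x)).card
      ≤ ∑ I ∈ IS G S (j + 1), (S.card + j * (ext G S I).card) :=
        Finset.sum_le_sum fun I hI => sum_erase_le G S I j hI
    _ = S.card * cnt G S (j + 1) + j * (j + 2) * cnt G S (j + 2) := by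
        rw [Finset.sum_add_distrib, Finset.sum_const, smul_eq_mul, card_IS, ← Finset.mul_sum,
          sum_card_ext]
        ring

/-- Moon–Moser -/
theorem moon_moser (S : Finset V) (j : ℕ) :
    ((j + 1) * cnt G S (j + 1)) ^ 2 ≤
      cnt G S j * (S.card * cnt G S (j + 1) + j * (j + 2) * cnt G S (j + 2)) := by
  rw [← sum_card_ext]
  have h1 : (∑ J ∈ IS G S j, (ext G S J).card) ^ 2 ≤
      (IS G S j).card * ∑ J ∈ IS G S j, (ext G S J).card ^ 2 := sq_sum_le_card_mul_sum_sq
  rw [card_IS] at h1
  exact h1.trans (Nat.mul_le_mul_left _ (sum_sq_ext G S j))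

/-- number of independent pairs -/
lemma cnt_two (S : Finset V) : 2 * cnt G S 2 + S.card + ed G S S = S.card * S.card := by
  have h := cnt_succ G S 1
  have h1 : ∀ v ∈ S, cnt G (del G S v) 1 + (nb G S v).card + 1 = S.card := by
    intro v hv
    rw [cnt_one]
    exact card_del G S v hv
  have h2 : ∑ v ∈ S, (cnt G (del G S v) 1 + (nb G S v).card + 1) = S.card * S.card := by
    rw [Finset.sum_congr rfl h1, Finset.sum_const, smul_eq_mul]
  rw [Finset.sum_add_distrib, Finset.sum_add_distrib, ← h, Finset.sum_const, smul_eq_mul,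
    ← ed_eq] at h2
  simp only [mul_one] at h2
  norm_num at h2
  linarith

/-- consequence of Moon–Moser: `t i_t ≥ (N-(t-1)(1+2e/N)) i_{t-1}` -/
theorem moon_moser_lin (S : Finset V) (hS : S.Nonempty) (t : ℕ) :
    ((S.card : ℝ) - t * (1 + (ed G S S : ℝ) / S.card)) * cnt G S t ≤
      (t + 1) * cnt G S (t + 1) := by
  have hN : (0 : ℝ) < S.card := by exact_mod_cast Finset.card_pos.2 hS
  induction t with
  | zero =>
    rw [cnt_zero, cnt_one]; simp
  | succ t ih =>
    rcases Nat.eq_zero_or_pos t with h0 | h0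
    · subst h0
      have h2 := cnt_two G S
      have h2' : 2 * (cnt G S 2 : ℝ) + S.card + ed G S S = S.card * S.card := by exact_mod_cast h2
      rw [cnt_one]
      push_cast
      have : ((S.card : ℝ) - 1 * (1 + (ed G S S : ℝ) / S.card)) * S.card =
          S.card * S.card - S.card - ed G S S := by
        field_simp
        ring
      norm_num at this ⊢
      linarith
    · have hmm := moon_moser G S t
      have hmm' : (((t : ℝ) + 1) * cnt G S (t + 1)) ^ 2 ≤
          cnt G S t * (S.card * cnt G S (t + 1) + t * (t + 2) * cnt G S (t + 2)) := by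
        exact_mod_cast hmm
      set B : ℝ := 1 + (ed G S S : ℝ) / S.card with hB
      set a : ℝ := (cnt G S t : ℝ) with ha
      set b : ℝ := (cnt G S (t + 1) : ℝ) with hb
      set c : ℝ := (cnt G S (t + 2) : ℝ) with hc
      have ha0 : 0 ≤ a := Nat.cast_nonneg _
      have hb0 : 0 ≤ b := Nat.cast_nonneg _
      have hc0 : 0 ≤ c := Nat.cast_nonneg _
      have ht : (1 : ℝ) ≤ t := by exact_mod_cast h0
      push_cast
      have e1 : (t : ℝ) + 1 + 1 = t + 2 := by ring
      rw [e1]
      rcases ha0.eq_or_lt with ha1 | ha1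
      · have hb1 : b = 0 := by
          rw [← ha1] at hmm'
          have : (((t : ℝ) + 1) * b) ^ 2 ≤ 0 := by simpa using hmm'
          have h3 : ((t : ℝ) + 1) * b = 0 := by
            have := le_antisymm this (sq_nonneg _)
            exact pow_eq_zero_iff (by norm_num) |>.1 this
          rcases mul_eq_zero.1 h3 with h4 | h4
          · linarith
          · exact h4
        rw [hb1, mul_zero]
        positivity
      · -- (t+1)b ≥ (N - tB) a
        have h3 : ((S.card : ℝ) - t * B) * a * ((t + 1) * b) ≤ ((t + 1) * b) * ((t + 1) * b) :=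
          mul_le_mul_of_nonneg_right ih (by positivity)
        have h4 : a * (((S.card : ℝ) - t * B) * ((t + 1) * b)) ≤
            a * (S.card * b + t * (t + 2) * c) := by
          calc a * (((S.card : ℝ) - t * B) * ((t + 1) * b))
              = ((S.card : ℝ) - t * B) * a * ((t + 1) * b) := by ring
            _ ≤ ((t + 1) * b) * ((t + 1) * b) := h3
            _ = ((t + 1) * b) ^ 2 := by ring
            _ ≤ a * (S.card * b + t * (t + 2) * c) := hmm'
        have h5 := le_of_mul_le_mul_left h4 ha1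
        have h6 : (t : ℝ) * (((S.card : ℝ) - (t + 1) * B) * b) ≤ t * ((t + 2) * c) := by
          nlinarith
        exact le_of_mul_le_mul_left h6 (by linarith)

end Pool.Agent.Lib.MP_99e3ed_co.H87
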