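import Pool.Agent.Lib.MP_99e3ed_co.H87.StepA

/-!
The induction over the levels; everything modulo `FB`.
-/

set_option autoImplicit false

open Finset
open Classical
open Pool.Agent.Lib.MP_99e3ed_co.H90
open Pool.Agent.Lib.MP_99e3ed_co.Ratio
open Pool.Agent.MP_99e3ed_co

namespace Pool.Agent.Lib.MP_99e3ed_co.H87

section level2

variable {V : Type*} (G : SimpleGraph V)

/-- (Z) for `k = 2` -/
lemma z_two (F : Finset V) (v : V) (d : ℕ) (hf : 2 * d ≤ F.card)
    (hdeg : ∀ u ∈ F, (nb G F u).card ≤ d) :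
    (F.card : ℝ) * cnt G (F \ nb G F v) 2 ≤ ((F.card : ℝ) - (nb G F v).card) * cnt G F 2 := by
  set W := nb G F v with hW
  have hWF : W ⊆ F := Finset.filter_subset _ _
  have hc : (F \ W).card + W.card = F.card := Finset.card_sdiff_add_card_eq_card hWF
  have h1 := cnt_two G F
  have h2 := cnt_two G (F \ W)
  have hsplit : ∀ A : Finset V, ed G A F = ed G A (F \ W) + ed G A W := by
    intro A
    have : F = (F \ W) ∪ W := (Finset.sdiff_union_of_subset hWF).symm
    conv_lhs => rw [this]
    rw [ed_union G A _ _ Finset.sdiff_disjoint]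
  have a1 := hsplit F
  have a2 := hsplit (F \ W)
  have a3 := hsplit W
  have a4 : ed G F (F \ W) = ed G (F \ W) F := ed_comm G _ _
  have a5 : ed G F W = ed G W F := ed_comm G _ _
  have a6 : ed G (F \ W) W = ed G W (F \ W) := ed_comm G _ _
  have a7 : ed G W F ≤ W.card * d := ed_le G _ _ d fun u hu => hdeg u (hWF hu)
  obtain ⟨M, hM⟩ : ∃ M, ed G F F = ed G (F \ W) (F \ W) + M :=
    ⟨ed G F F - ed G (F \ W) (F \ W), by omega⟩
  have hM2 : M ≤ 2 * (W.card * d) := by omega
  have h1' : 2 * (cnt G F 2 : ℝ) + F.card + ed G F F = F.card * F.card := by exact_mod_cast h1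
  have h2' : 2 * (cnt G (F \ W) 2 : ℝ) + (F \ W).card + ed G (F \ W) (F \ W) =
      (F \ W).card * (F \ W).card := by exact_mod_cast h2
  have hc' : ((F \ W).card : ℝ) = F.card - W.card := by
    have : ((F \ W).card : ℝ) + W.card = F.card := by exact_mod_cast hc
    linarith
  have hM' : (ed G F F : ℝ) = ed G (F \ W) (F \ W) + M := by exact_mod_cast hM
  have hM2' : (M : ℝ) ≤ 2 * (W.card * d) := by exact_mod_cast hM2
  have hf' : 2 * (d : ℝ) ≤ F.card := by exact_mod_cast hf
  have hEM : (M : ℝ) ≤ ed G F F := by rw [hM']; linarith [(Nat.cast_nonneg (ed G (F \ W) (F \ W)) : (0:ℝ) ≤ _)]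
  rw [hc'] at h2'
  set f : ℝ := (F.card : ℝ) with hfdef
  set w : ℝ := (W.card : ℝ) with hwdef
  set E : ℝ := (ed G F F : ℝ) with hE
  set E' : ℝ := (ed G (F \ W) (F \ W) : ℝ) with hE'
  have hw0 : 0 ≤ w := Nat.cast_nonneg _
  have hfw : w ≤ f := by
    have : (0 : ℝ) ≤ ((F \ W).card : ℝ) := Nat.cast_nonneg _
    linarith
  have key : f * M - w * E ≤ f * (f - w) * w := by
    have k1 : w * M ≤ w * E := mul_le_mul_of_nonneg_left hEM hw0
    have k2 : (f - w) * M ≤ (f - w) * (2 * (w * d)) :=
      mul_le_mul_of_nonneg_left hM2' (by linarith)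
    have k3 : (f - w) * w * (2 * d) ≤ (f - w) * w * f :=
      mul_le_mul_of_nonneg_left hf' (mul_nonneg (by linarith) hw0)
    linarith
  have e1 : (cnt G F 2 : ℝ) = (f * f - f - E) / 2 := by linarith
  have e2 : (cnt G (F \ W) 2 : ℝ) = ((f - w) * (f - w) - (f - w) - E') / 2 := by linarith
  rw [e1, e2]
  have e3 : E' = E - M := by linarith
  rw [e3]
  linarith

end level2

/-! ### `n < 2 d`: `TT` is affine in `s` -/

lemma TT_affine (d k n : ℕ) (hd : 1 ≤ d) (hn : n < 2 * d) (s : ℝ) :
    TT d k n s = (n.choose k : ℝ) - s / (2 * d) * (if d ≤ n then ((n - d).choose k : ℝ) else 0) := by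
  have hdr : (0 : ℝ) < d := by exact_mod_cast hd
  unfold TT
  split_ifs with h
  · have e : n / d = 1 := by
      apply Nat.div_eq_of_lt_le
      · omega
      · omega
    rw [e, Finset.sum_range_succ, Finset.sum_range_succ, Finset.sum_range_zero]
    have c0 : cc (s / d) 0 = 1 := rfl
    have c1 : cc (s / d) 1 = cc (s / d) 0 * (-(s / d - ((0 : ℕ) : ℝ)) / (2 * (((0 : ℕ) : ℝ) + 1))) :=
      rfl
    rw [c1, c0]
    simp only [mul_zero, Nat.sub_zero, mul_one, Nat.cast_zero, zero_add, one_mul, sub_zero]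
    field_simp
    ring
  · have e : n / d = 0 := Nat.div_eq_of_lt (by omega)
    rw [e, Finset.sum_range_succ, Finset.sum_range_zero]
    have c0 : cc (s / d) 0 = 1 := rfl
    rw [c0]
    simp

/-- chord of a quotient of affine functions -/
lemma moebius {N0 N1 p q t : ℝ} (hp : 0 < p) (hpq : p ≤ q) (ht0 : 0 ≤ t) (ht1 : t ≤ 1)
    (hm : N0 / p ≤ N1 / q) :
    (1 - t) * (N0 / p) + t * (N1 / q) ≤ ((1 - t) * N0 + t * N1) / ((1 - t) * p + t * q) := by
  have hq : 0 < q := by linarith
  have hr : 0 < (1 - t) * p + t * q := by nlinarith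
  rw [div_le_div_iff₀ hp hq] at hm
  rw [le_div_iff₀ hr]
  have e : ((1 - t) * (N0 / p) + t * (N1 / q)) * ((1 - t) * p + t * q) =
      ((1 - t) * N0 + t * N1) + t * (1 - t) * (q - p) * (N0 * q - N1 * p) / (p * q) := by
    field_simp
    ring
  rw [e]
  have h1 : t * (1 - t) * (q - p) * (N0 * q - N1 * p) / (p * q) ≤ 0 := by
    apply div_nonpos_of_nonpos_of_nonneg
    · have : 0 ≤ t * (1 - t) * (q - p) := mul_nonneg (mul_nonneg ht0 (by linarith)) (by linarith)
      nlinarith
    · positivity
  linarith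

/-- (F-B) for `n < 2d` -/
lemma fb_small (d K n s δ : ℕ) (hd : 2 ≤ d) (hK : 1 ≤ K) (hKn : K + 2 ≤ n) (hs1 : 1 ≤ s)
    (hsn : s < n) (hsK : s ≤ K * d) (hn : n < 2 * d) (hδ : δ ≤ d) (hcard : K + 1 + δ ≤ n + s) :
    GT d (K + 1) n ((s : ℝ) - d) - GTp d (K + 1) n ((s : ℝ) - δ) ≤
      (1 - (δ : ℝ) / d) * (GT d (K + 1) n ((s : ℝ) - d) - GT d (K + 1) n s) := by
  obtain ⟨m, rfl⟩ : ∃ m, n = m + 1 := ⟨n - 1, by omega⟩
  have hdr : (0 : ℝ) < d := by
    have : 0 < d := by omega
    exact_mod_cast this
  have hs1r : (1 : ℝ) ≤ s := by exact_mod_cast hs1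
  have hsKr : (s : ℝ) ≤ K * d := by exact_mod_cast hsK
  have hδr : (δ : ℝ) ≤ d := by exact_mod_cast hδ
  have hδ0 : (0 : ℝ) ≤ δ := Nat.cast_nonneg _
  have hmono := (fat_all d K (m + 1) s hd hK hKn hs1 hsn hsK).1
  have hle := GT_le_GTp d K (m + 1) s (by omega) (by omega) δ hδ hcard
  have hK1 : (s : ℝ) < ((K + 1 : ℕ) : ℝ) * d := by push_cast; nlinarith
  have p0 : 0 < TT d (K + 1) (m + 1) s :=
    H84.ttPos d (K + 1) (m + 1) s (by omega) (by omega) (by linarith) hK1
  have hpq : TT d (K + 1) (m + 1) s ≤ TT d (K + 1) (m + 1) ((s : ℝ) - d) := by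
    rw [TT_affine d (K + 1) (m + 1) (by omega) hn, TT_affine d (K + 1) (m + 1) (by omega) hn]
    have h0 : (0 : ℝ) ≤ (if d ≤ m + 1 then (((m + 1) - d).choose (K + 1) : ℝ) else 0) := by
      split_ifs <;> positivity
    have h1 : ((s : ℝ) - d) / (2 * d) ≤ s / (2 * d) := by
      apply div_le_div_of_nonneg_right _ (by positivity)
      linarith
    have := mul_le_mul_of_nonneg_right h1 h0
    linarith
  set t : ℝ := (δ : ℝ) / d with ht
  have ht0 : 0 ≤ t := by positivity
  have ht1 : t ≤ 1 := by rw [ht, div_le_one hdr]; exact hδr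
  have hδt : (δ : ℝ) = t * d := by rw [ht]; field_simp
  have aff1 : TT d (K + 1) (m + 1) ((s : ℝ) - δ) =
      (1 - t) * TT d (K + 1) (m + 1) s + t * TT d (K + 1) (m + 1) ((s : ℝ) - d) := by
    rw [TT_affine d (K + 1) (m + 1) (by omega) hn, TT_affine d (K + 1) (m + 1) (by omega) hn,
      TT_affine d (K + 1) (m + 1) (by omega) hn, hδt]
    ring
  have aff2 : TT d K m ((s : ℝ) - δ) =
      (1 - t) * TT d K m s + t * TT d K m ((s : ℝ) - d) := by
    rw [TT_affine d K m (by omega) (by omega), TT_affine d K m (by omega) (by omega),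
      TT_affine d K m (by omega) (by omega), hδt]
    ring
  have hG : ∀ x : ℝ, GT d (K + 1) (m + 1) x = TT d K m x / TT d (K + 1) (m + 1) x := by
    intro x; unfold GT; simp
  rw [hG, hG] at hmono
  have hmb := moebius p0 hpq ht0 ht1 hmono
  rw [← aff1, ← aff2, ← hG, ← hG, ← hG] at hmb
  have : (1 - t) * GT d (K + 1) (m + 1) s + t * GT d (K + 1) (m + 1) ((s : ℝ) - d) ≤
      GTp d (K + 1) (m + 1) ((s : ℝ) - δ) := hmb.trans hle
  linarith

/-! ### the claims -/

section claims

variable {V : Type} (G : SimpleGraph V)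

lemma claim_one (d : ℕ) : Claim G d 1 := by
  intro F n s hF _ _
  refine ⟨fun h => by simp at h, fun _ => ?_⟩
  simp only [Nat.sub_self]
  rw [H64.AA_one, cnt_one, cnt_zero]
  have : AA d 0 (n : ℝ) s = 1 := rfl
  rw [this, hF]
  push_cast
  linarith

lemma claim_two (d : ℕ) : Claim G d 2 := by
  intro F n s hF hed _
  refine ⟨fun h => by simp at h, fun _ => ?_⟩
  have e : 2 - 1 = 1 := rfl
  rw [e, H64.AA_one, H64.AA_two, cnt_one]
  have h1 := cnt_two G F
  have h1' : 2 * (cnt G F 2 : ℝ) + F.card + ed G F F = F.card * F.card := by exact_mod_cast h1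
  have h2 : 2 * ((d : ℝ) * s) ≤ ed G F F := by exact_mod_cast hed
  have hF' : (F.card : ℝ) = n + s := by exact_mod_cast hF
  rw [hF'] at h1' ⊢
  have h3 : (cnt G F 2 : ℝ) ≤ (((n : ℝ) + s) * (n + s - 1) - 2 * s * d) / 2 := by linarith
  have h4 : (0 : ℝ) ≤ (n : ℝ) + s := by positivity
  exact mul_le_mul_of_nonneg_right h3 h4

/-- one level -/
theorem claim_succ (hFB : FB) (d K : ℕ) (hd : 3 ≤ d) (hK : 1 ≤ K) (hC : Claim G d (K + 1)) :
    Claim G d (K + 2) := by
  intro F n s hF hed hdeg
  have hdr : (0 : ℝ) < d := by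
    have : 0 < d := by omega
    exact_mod_cast this
  have eK : K + 2 - 2 = K := by omega
  have eK1 : K + 2 - 1 = K + 1 := by omega
  rw [eK, eK1]
  rcases Nat.eq_zero_or_pos s with hs0 | hs0
  · -- s = 0
    subst hs0
    refine ⟨fun _ => ?_, fun h => ?_⟩
    · rw [Nat.cast_zero, H64.TT_zero_right, H64.TT_zero_right]
      have h1 := cnt_upper G F (K + 1)
      rw [hF, add_zero] at h1
      have h1' : ((K : ℝ) + 1 + 1) * cnt G F (K + 2) + (K + 1) * cnt G F (K + 1) ≤
          n * cnt G F (K + 1) := by exact_mod_cast h1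
      have h2 : ((K : ℝ) + 2) * (n.choose (K + 2) : ℝ) = (n.choose (K + 1) : ℝ) * (n - (K + 1)) := by
        rcases Nat.lt_or_ge n (K + 1) with h | h
        · rw [Nat.choose_eq_zero_of_lt h, Nat.choose_eq_zero_of_lt (by omega)]; simp
        · have := Nat.choose_succ_right_eq n (K + 1)
          have h3 : ((n.choose (K + 1 + 1) * (K + 1 + 1) : ℕ) : ℝ) =
              ((n.choose (K + 1) * (n - (K + 1)) : ℕ) : ℝ) := by rw [this]
          push_cast [Nat.cast_sub h] at h3
          linarith
      have h4 : (0 : ℝ) < (K : ℝ) + 2 := by positivity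
      refine le_of_mul_le_mul_left (a := (K : ℝ) + 2) ?_ h4
      have hc0 : (0 : ℝ) ≤ (n.choose (K + 1) : ℝ) := Nat.cast_nonneg _
      have h5 : ((K : ℝ) + 2) * cnt G F (K + 2) ≤ (n - (K + 1)) * cnt G F (K + 1) := by linarith
      have h6 := mul_le_mul_of_nonneg_right h5 hc0
      calc ((K : ℝ) + 2) * (cnt G F (K + 2) * (n.choose (K + 1) : ℝ))
          = ((K : ℝ) + 2) * cnt G F (K + 2) * (n.choose (K + 1) : ℝ) := by ring
        _ ≤ (n - (K + 1)) * cnt G F (K + 1) * (n.choose (K + 1) : ℝ) := h6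
        _ = (((K : ℝ) + 2) * (n.choose (K + 2) : ℝ)) * cnt G F (K + 1) := by rw [h2]; ring
        _ = _ := by ring
    · exfalso
      have : 1 ≤ K * d := Nat.mul_pos hK (by omega)
      omega
  -- downward induction from `⌊e/d⌋`
  set S := ed G F F / (2 * d) with hS
  have hSle : 2 * (d * S) ≤ ed G F F := by
    have := Nat.mul_div_le (ed G F F) (2 * d)
    rw [← hS] at this
    linarith
  have hSlt : ed G F F < 2 * (d * (S + 1)) := by
    have := Nat.lt_mul_div_succ (ed G F F) (show 0 < 2 * d by omega)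
    rw [← hS] at this
    linarith
  have key : ∀ r n s : ℕ, 1 ≤ s → F.card = n + s → s + r = S →
      (s < K * d → (cnt G F (K + 2) : ℝ) * TT d (K + 1) n s ≤ TT d (K + 2) n s * cnt G F (K + 1)) ∧
      (K * d ≤ s → (cnt G F (K + 2) : ℝ) * AA d (K + 1) n s ≤
        AA d (K + 2) n s * cnt G F (K + 1)) := by
    intro r
    induction r with
    | zero =>
      intro n s hs1 hF hsS
      obtain rfl : s = S := by omega
      refine ⟨fun hsK => ?_, fun hsK => ?_⟩
      · rcases Nat.lt_or_ge n (K + 2) with hn | hn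
        · rw [alpha G F d n _ (K + 2) (by omega) hF hSle hdeg hn,
            H84.ttZero d (K + 2) n _ (by omega) hn]
          simp
        refine stepT G d K hd hK hC F n _ hF hSle hdeg hs1 hsK hn ?_
        intro v hv hδ1 hδd hsn hcard
        have hpos : (0 : ℝ) < (n : ℝ) + S := by
          have : (1 : ℝ) ≤ S := by exact_mod_cast hs1
          have : (0 : ℝ) ≤ n := Nat.cast_nonneg _
          linarith
        -- from (Z) in multiplied form
        have fromZ : ((n : ℝ) + S) * (cnt G (F \ nb G F v) (K + 1) : ℝ) ≤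
            ((n : ℝ) + S - (nb G F v).card) * (cnt G F (K + 1) : ℝ) →
            ∃ ze : ℝ, (cnt G (F \ nb G F v) (K + 1) : ℝ) ≤ ze * cnt G F (K + 1) ∧
              ze * (GT d (K + 1) n ((S : ℝ) - d) - GTp d (K + 1) n ((S : ℝ) - (nb G F v).card)) ≤
                (1 - ((nb G F v).card : ℝ) / d) *
                  (GT d (K + 1) n ((S : ℝ) - d) - GT d (K + 1) n S) := by
          intro hz
          refine ⟨1 - ((nb G F v).card : ℝ) / (n + S), ?_,
            (fat_all d K n S (by omega) hK hn hs1 hsn hsK.le).2 _ hδd.le hcard⟩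
          have e3 : (1 - ((nb G F v).card : ℝ) / ((n : ℝ) + S)) * (cnt G F (K + 1) : ℝ) =
              ((n : ℝ) + S - (nb G F v).card) * cnt G F (K + 1) / ((n : ℝ) + S) := by
            field_simp
          rw [e3, le_div_iff₀ hpos]
          linarith
        have hcard0 : (cnt G (F \ nb G F v) (K + 1) : ℝ) ≤ 1 * cnt G F (K + 1) := by
          rw [one_mul]
          exact_mod_cast cnt_mono G Finset.sdiff_subset (K + 1)
        rcases Nat.lt_or_ge K 2 with hK2 | hK2
        · obtain rfl : K = 1 := by omega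
          rcases Nat.lt_or_ge n (2 * d) with hn2 | hn2
          · refine ⟨1, hcard0, ?_⟩
            rw [one_mul]
            exact fb_small d 1 n S _ (by omega) le_rfl hn hs1 hsn hsK.le hn2 hδd.le hcard
          · refine fromZ ?_
            have := z_two G F v d (by omega) hdeg
            have e4 : (F.card : ℝ) = n + S := by exact_mod_cast hF
            rw [e4] at this
            exact this
        · by_cases hreg : ZReg d (K + 1) n S
          · exact fromZ (zz G F v d (K + 1) n S hd (by omega) hF hdeg hSlt hv hδ1 hδd (Or.inl hreg))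
          · refine ⟨1, hcard0, ?_⟩
            have := hFB d (K + 1) n S (nb G F v).card hd (by omega) (by omega) hs1 hsn
              (by simpa using hsK) hδ1 hδd hcard hreg
            rw [one_mul]
            linarith
      · refine stepA G d K hd hK hC F n _ hF hSle hdeg hsK ?_
        intro v hv hδ1 hδd hsn
        rcases Nat.lt_or_ge K 2 with hK2 | hK2
        · obtain rfl : K = 1 := by omega
          have := z_two G F v d (by omega) hdeg
          have e4 : (F.card : ℝ) = n + S := by exact_mod_cast hF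
          rw [e4] at this
          exact this
        · exact zz G F v d (K + 1) n S hd (by omega) hF hdeg hSlt hv hδ1 hδd
            (Or.inr ⟨by simpa using hsK, hsn⟩)
    | succ r ih =>
      intro n s hs1 hF hsS
      have hS1 : s + 1 ≤ S := by omega
      have hed' : 2 * (d * (s + 1)) ≤ ed G F F := by
        have : d * (s + 1) ≤ d * S := Nat.mul_le_mul_left _ hS1
        omega
      obtain ⟨m, rfl⟩ : ∃ m, n = m + 1 := by
        have h1 : ed G F F ≤ F.card * d := ed_le G F F d hdeg
        rw [hF] at h1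
        refine ⟨n - 1, ?_⟩
        by_contra hne
        have hn0 : n = 0 := by omega
        subst hn0
        have : 2 * (d * (s + 1)) ≤ (0 + s) * d := hed'.trans h1
        nlinarith
      have hF' : F.card = m + (s + 1) := by omega
      have hsm := s_le_n G F d m (s + 1) (by omega) hF' hed' hdeg
      obtain ⟨i1, i2⟩ := ih m (s + 1) (by omega) hF' (by omega)
      have hik0 : (0 : ℝ) ≤ cnt G F (K + 1) := Nat.cast_nonneg _
      have hcm : (((m + 1 : ℕ) : ℝ) - 1) = m := by push_cast; ring
      have hcs : ((s + 1 : ℕ) : ℝ) = (s : ℝ) + 1 := by push_cast; ring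
      have hs1r : (1 : ℝ) ≤ s := by exact_mod_cast hs1
      refine ⟨fun hsK => ?_, fun hsK => ?_⟩
      · rcases Nat.lt_or_ge (m + 1) (K + 2) with hn | hn
        · have hed2 : 2 * (d * s) ≤ ed G F F := by
            have : d * s ≤ d * (s + 1) := Nat.mul_le_mul_left _ (by omega)
            omega
          rw [alpha G F d (m + 1) s (K + 2) (by omega) hF hed2 hdeg hn,
            H84.ttZero d (K + 2) (m + 1) _ (by omega) hn]
          simp
        -- the T-claim at s+1
        have hT : (cnt G F (K + 2) : ℝ) * TT d (K + 1) m ((s + 1 : ℕ) : ℝ) ≤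
            TT d (K + 2) m ((s + 1 : ℕ) : ℝ) * cnt G F (K + 1) := by
          rcases Nat.lt_or_ge (s + 1) (K * d) with h | h
          · exact i1 h
          · have e2 : s + 1 = d * K := by rw [Nat.mul_comm]; omega
            have h3 := i2 h
            rw [e2] at h3 ⊢
            exact kind_mul d m K (K + 1) _ _ (by omega) (by omega) h3
        have hmo := H64.monoT H84.ttb d (K + 2) (m + 1) s hd (by omega) hs1 (by rw [eK]; exact hsK)
          (by omega)
        rw [eK1, Nat.add_sub_cancel] at hmo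
        rw [hcs] at hT
        have hsKr : (s : ℝ) + 1 ≤ K * d := by exact_mod_cast hsK
        have q1 : 0 < TT d (K + 1) m ((s : ℝ) + 1) :=
          H84.ttPos d (K + 1) m _ (by omega) (by omega) (by linarith) (by push_cast; nlinarith)
        have q2 : 0 < TT d (K + 1) (m + 1) s :=
          H84.ttPos d (K + 1) (m + 1) _ (by omega) (by omega) (by linarith)
            (by push_cast; nlinarith)
        have h5 := mul_le_mul_of_nonneg_right hT q2.le
        have h6 := mul_le_mul_of_nonneg_right hmo hik0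
        refine le_of_mul_le_mul_left (a := TT d (K + 1) m ((s : ℝ) + 1)) ?_ q1
        linarith
      · have hA := i2 (by omega)
        have hmo := H64.monoA d (K + 2) (m + 1) s hd (by omega) hs1 (by rw [eK]; exact hsK)
          (by omega)
        rw [eK1, hcm] at hmo
        rw [hcs] at hA
        have hKd : (K - 1) * d + d = K * d := by
          obtain ⟨L, rfl⟩ : ∃ L, K = L + 1 := ⟨K - 1, by omega⟩
          simp only [Nat.add_sub_cancel]; ring
        have q1 : 0 < AA d (K + 1) (m : ℝ) ((s : ℝ) + 1) := by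
          rw [← hcs]
          exact AApos1 d K m (s + 1) hd hK (by omega) (by omega) (Or.inl (by omega))
        have q2 : 0 < AA d (K + 1) ((m + 1 : ℕ) : ℝ) s :=
          AApos1 d K (m + 1) s hd hK (by omega) (by omega) (Or.inl (by omega))
        have h5 := mul_le_mul_of_nonneg_right hA q2.le
        have h6 := mul_le_mul_of_nonneg_right hmo hik0
        refine le_of_mul_le_mul_left (a := AA d (K + 1) (m : ℝ) ((s : ℝ) + 1)) ?_ q1
        linarith
  have hsS : s ≤ S := by
    rw [hS, Nat.le_div_iff_mul_le (by omega)]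
    linarith
  exact key (S - s) n s hs0 hF (by omega)

theorem claims (hFB : FB) (d : ℕ) (hd : 3 ≤ d) : ∀ j : ℕ, 1 ≤ j → Claim G d j := by
  intro j
  induction j with
  | zero => intro h; omega
  | succ j ih =>
    intro _
    rcases Nat.lt_or_ge j 2 with h | h
    · rcases Nat.eq_zero_or_pos j with h0 | h0
      · subst h0; exact claim_one G d
      · obtain rfl : j = 1 := by omega
        exact claim_two G d
    · obtain ⟨K, rfl⟩ : ∃ K, j = K + 1 := ⟨j - 1, by omega⟩
      exact claim_succ G hFB d K hd (by omega) (ih (by omega))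

end claims

end Pool.Agent.Lib.MP_99e3ed_co.H87
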