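import Pool.Agent.Lib.MP_99e3ed_co.H87.StepT

/-!
The LP step, kind `A`.
-/

set_option autoImplicit false

open Finset
open Classical
open Pool.Agent.Lib.MP_99e3ed_co.H90
open Pool.Agent.Lib.MP_99e3ed_co.Ratio
open Pool.Agent.MP_99e3ed_co

namespace Pool.Agent.Lib.MP_99e3ed_co.H87

variable {V : Type*} (G : SimpleGraph V)

/-- positivity of `A_{K+1}(n,s')`, including the corner `n = s = K d` -/
lemma AApos1 (d K n s : ℕ) (hd : 3 ≤ d) (hK : 1 ≤ K) (hs : (K - 1) * d ≤ s) (hsn : s ≤ n)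
    (hn : K * d + 1 ≤ n ∨ (K * d ≤ n ∧ ∃ q, s = d * q ∧ q ≤ K)) : 0 < AA d (K + 1) (n : ℝ) s := by
  by_cases h : K * d + 1 ≤ n
  · refine H64.aaPos d (K + 1) n s hd (by omega) ?_ (by exact_mod_cast hsn) ?_
    · have h1 : ((K - 1 : ℕ) : ℝ) = (K : ℝ) - 1 := by
        rw [Nat.cast_sub (by omega)]; simp
      have h2 : (((K - 1) * d : ℕ) : ℝ) ≤ s := by exact_mod_cast hs
      rw [Nat.cast_mul, h1] at h2
      push_cast
      linarith
    · have h2 : ((K * d + 1 : ℕ) : ℝ) ≤ n := by exact_mod_cast h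
      push_cast at h2 ⊢
      linarith
  · obtain ⟨h1, q, rfl, hq⟩ := hn.resolve_left h
    rw [H64.aaMul d (K + 1) n q (by omega) hsn]
    have h3 : K + 1 ≤ n := by nlinarith
    have h4 : d * q < (K + 1) * d := by nlinarith
    have := H84.ttPos d (K + 1) n ((d * q : ℕ) : ℝ) (by omega) h3 (by
      have h5 : (0 : ℝ) ≤ d := Nat.cast_nonneg _
      have h6 : (0 : ℝ) ≤ ((d * q : ℕ) : ℝ) := Nat.cast_nonneg _
      linarith) (by exact_mod_cast h4)
    positivity

/-- the bound for a vertex of degree `δ`, kind `A` -/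
lemma vertexA (d K : ℕ) (hK : 1 ≤ K) (hC : Claim G d (K + 1)) (F : Finset V)
    (m s : ℕ) (hF : F.card = m + 1 + s) (hed : 2 * (d * s) ≤ ed G F F)
    (hdeg : ∀ u ∈ F, (nb G F u).card ≤ d) (hsK : K * d ≤ s)
    (v : V) (hv : v ∈ F) (hpos : 0 < AA d (K + 1) ((m + 1 : ℕ) : ℝ) ((s : ℝ) - (nb G F v).card)) :
    GA d (K + 1) ((m + 1 : ℕ) : ℝ) ((s : ℝ) - (nb G F v).card) *
      cnt G (F \ nb G F v) (K + 1) ≤ cnt G (del G F v) K := by
  set δ := (nb G F v).card with hδ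
  have hδd : δ ≤ d := hdeg v hv
  have hKd : (K - 1) * d + d = K * d := by
    obtain ⟨L, rfl⟩ : ∃ L, K = L + 1 := ⟨K - 1, by omega⟩
    simp only [Nat.add_sub_cancel]; ring
  have hδs : δ ≤ s := by omega
  obtain ⟨f1, f2, f3⟩ := del_facts G F v hv d m s hF hed hdeg hδs
  have hcast : (s : ℝ) - δ = ((s - δ : ℕ) : ℝ) := by rw [Nat.cast_sub hδs]
  rw [hcast] at hpos ⊢
  have hr := ratioA G d K hC (del G F v) m (s - δ) f1 f2 f3 (by omega)
  unfold GA
  simp only [Nat.add_sub_cancel]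
  have e : (((m + 1 : ℕ) : ℝ) - 1) = m := by push_cast; ring
  rw [e]
  have hp := H84.aaPascal d K (m : ℝ) ((s - δ : ℕ) : ℝ)
  have e2 : (m : ℝ) + 1 = ((m + 1 : ℕ) : ℝ) := by push_cast; ring
  rw [e2] at hp
  exact ratio_to_vertex G F v hv K _ _ _ _ hpos hp rfl hr

/-- the LP step, kind `A` -/
theorem stepA (d K : ℕ) (hd : 3 ≤ d) (hK : 1 ≤ K) (hC : Claim G d (K + 1)) (F : Finset V)
    (n s : ℕ) (hF : F.card = n + s) (hed : 2 * (d * s) ≤ ed G F F)
    (hdeg : ∀ u ∈ F, (nb G F u).card ≤ d) (hsK : K * d ≤ s)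
    (hch : ∀ v ∈ F, 1 ≤ (nb G F v).card → (nb G F v).card < d → s < n →
      ((n : ℝ) + s) * (cnt G (F \ nb G F v) (K + 1) : ℝ) ≤
        ((n : ℝ) + s - (nb G F v).card) * (cnt G F (K + 1) : ℝ)) :
    (cnt G F (K + 2) : ℝ) * AA d (K + 1) n s ≤ AA d (K + 2) n s * cnt G F (K + 1) := by
  have hsn := s_le_n G F d n s (by omega) hF hed hdeg
  have hdr : (0 : ℝ) < d := by
    have : 0 < d := by omega
    exact_mod_cast this
  have hKd1 : 3 ≤ K * d := by nlinarith
  have hKd : (K - 1) * d + d = K * d := by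
    obtain ⟨L, rfl⟩ : ∃ L, K = L + 1 := ⟨K - 1, by omega⟩
    simp only [Nat.add_sub_cancel]; ring
  obtain ⟨m, rfl⟩ : ∃ m, n = m + 1 := ⟨n - 1, by omega⟩
  have hcd : (s : ℝ) - d = ((s - d : ℕ) : ℝ) := by rw [Nat.cast_sub (by omega)]
  -- alternatives
  have halt : K * d + 1 ≤ m + 1 ∨ (m + 1 = K * d ∧ s = d * K) := by
    rcases Nat.lt_or_ge (K * d) (m + 1) with h | h
    · exact Or.inl h
    · exact Or.inr ⟨by omega, by rw [Nat.mul_comm]; omega⟩
  have p1 : 0 < AA d (K + 1) ((m + 1 : ℕ) : ℝ) s := by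
    refine AApos1 d K (m + 1) s hd hK (by omega) hsn ?_
    rcases halt with h | ⟨h1, h2⟩
    · exact Or.inl h
    · exact Or.inr ⟨by omega, K, h2, le_rfl⟩
  have p2 : 0 < AA d (K + 1) ((m + 1 : ℕ) : ℝ) ((s : ℝ) - d) := by
    rw [hcd]
    refine AApos1 d K (m + 1) (s - d) hd hK (by omega) (by omega) ?_
    rcases halt with h | ⟨h1, h2⟩
    · exact Or.inl h
    · refine Or.inr ⟨by omega, K - 1, ?_, by omega⟩
      rw [h2]
      obtain ⟨L, rfl⟩ : ∃ L, K = L + 1 := ⟨K - 1, by omega⟩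
      simp only [Nat.add_sub_cancel]
      rw [Nat.mul_succ, Nat.add_sub_cancel]
  have p3 : 0 < AA d K ((m : ℕ) : ℝ) ((s : ℝ) - d) := by
    rw [hcd]
    rcases Nat.lt_or_ge K 2 with h2 | h2
    · obtain rfl : K = 1 := by omega
      rw [H64.AA_one]
      have : (2 : ℝ) ≤ m := by
        have : 2 ≤ m := by omega
        exact_mod_cast this
      have : (0 : ℝ) ≤ ((s - d : ℕ) : ℝ) := Nat.cast_nonneg _
      linarith
    · obtain ⟨L, rfl⟩ : ∃ L, K = L + 1 := ⟨K - 1, by omega⟩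
      simp only [Nat.add_sub_cancel] at hKd
      refine AApos1 d L m (s - d) hd (by omega) ?_ (by omega) (Or.inl (by omega))
      have : (L - 1) * d ≤ L * d := Nat.mul_le_mul_right _ (by omega)
      omega
  have hGdef : ∀ x : ℝ, GA d (K + 1) ((m + 1 : ℕ) : ℝ) x =
      AA d K (m : ℝ) x / AA d (K + 1) ((m + 1 : ℕ) : ℝ) x := by
    intro x
    unfold GA
    simp only [Nat.add_sub_cancel]
    have e : (((m + 1 : ℕ) : ℝ) - 1) = m := by push_cast; ring
    rw [e]
  have hmono : s < m + 1 → AA d K (m : ℝ) s / AA d (K + 1) ((m + 1 : ℕ) : ℝ) s ≤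
      AA d K (m : ℝ) ((s : ℝ) - d) / AA d (K + 1) ((m + 1 : ℕ) : ℝ) ((s : ℝ) - d) := by
    intro h
    rw [← hGdef, ← hGdef]
    obtain ⟨L, rfl⟩ : ∃ L, K = L + 1 := ⟨K - 1, by omega⟩
    have h1 := H84.wA_mono_d hd L m (s : ℝ) (by omega) (by exact_mod_cast hsK)
      (by exact_mod_cast Nat.lt_succ_iff.1 h)
    rw [H84.GA_eq, H84.GA_eq]
    refine one_div_le_one_div_of_le ?_ h1
    unfold H84.wf H84.XA
    refine div_pos p2 ?_
    simpa using p3
  have hedr : 2 * ((d : ℝ) * s) ≤ ed G F F := by exact_mod_cast hed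
  refine lp G F d K (m + 1) s (by omega) hF 2 (AA d (K + 1) ((m + 1 : ℕ) : ℝ) s)
    (AA d (K + 1) ((m + 1 : ℕ) : ℝ) ((s : ℝ) - d)) (AA d K (m : ℝ) s)
    (AA d K (m : ℝ) ((s : ℝ) - d)) (AA d (K + 2) ((m + 1 : ℕ) : ℝ) s) p1 p2 p3 ?_ ?_ ?_ ?_
  · have := H64.AA_rec d K ((m + 1 : ℕ) : ℝ) s
    have e : (((m + 1 : ℕ) : ℝ) - 1) = m := by push_cast; ring
    rw [e] at this
    exact this
  · have h1 := H64.AA_same d (K + 1) ((m + 1 : ℕ) : ℝ) (s : ℝ)
    push_cast at h1 ⊢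
    linarith
  · rcases hsn.eq_or_lt with h | h
    · have h1 : ed G F F ≤ F.card * d := ed_le G F F d hdeg
      have h1' : (ed G F F : ℝ) ≤ (((m + 1 : ℕ) : ℝ) + s) * d := by
        rw [hF] at h1; exact_mod_cast h1
      have h2 : (s : ℝ) = ((m + 1 : ℕ) : ℝ) := by exact_mod_cast h
      have h3 : (ed G F F : ℝ) = 2 * (d * s) := by
        refine le_antisymm ?_ hedr
        rw [← h2] at h1'
        linarith
      rw [h3]
      have h4 : 2 * ((d : ℝ) * s) / d = 2 * s := by field_simp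
      rw [h4, ← h2]
      have h5 : (s : ℝ) + s - 2 * s = s - s := by ring
      rw [h5]
    · refine mul_le_mul_of_nonneg_right ?_ (sub_nonneg.2 (hmono h))
      have h4 : 2 * (s : ℝ) ≤ (ed G F F : ℝ) / d := by
        rw [le_div_iff₀ hdr]; linarith
      linarith
  · intro v hv
    set δ := (nb G F v).card with hδ
    have hδd : δ ≤ d := hdeg v hv
    have hx0 : (0 : ℝ) ≤ cnt G (del G F v) K := Nat.cast_nonneg _
    have hZ0 : (0 : ℝ) ≤ cnt G (F \ nb G F v) (K + 1) := Nat.cast_nonneg _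
    have hik0 : (0 : ℝ) ≤ cnt G F (K + 1) := Nat.cast_nonneg _
    -- all degrees are `d` if `s = n`
    have hreg : s = m + 1 → δ = d := by
      intro h
      have h1 : ed G F F = ∑ u ∈ F, (nb G F u).card := rfl
      have h2 : ∑ u ∈ F, (nb G F u).card + (d - δ) ≤ ∑ u ∈ F, d := by
        rw [← Finset.add_sum_erase F _ hv, ← Finset.add_sum_erase F (fun _ => d) hv]
        have h3 : ∑ u ∈ F.erase v, (nb G F u).card ≤ ∑ u ∈ F.erase v, d :=
          Finset.sum_le_sum fun u hu => hdeg u (Finset.mem_of_mem_erase hu)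
        omega
      rw [Finset.sum_const, smul_eq_mul, hF] at h2
      have h4 : 2 * (d * s) + (d - δ) ≤ (m + 1 + s) * d := by omega
      rw [← h] at h4
      have h5 : (s + s) * d = 2 * (d * s) := by ring
      omega
    have hvt : 0 < AA d (K + 1) ((m + 1 : ℕ) : ℝ) ((s : ℝ) - δ) →
        GA d (K + 1) ((m + 1 : ℕ) : ℝ) ((s : ℝ) - δ) * cnt G (F \ nb G F v) (K + 1) ≤
          cnt G (del G F v) K := fun hp => vertexA G d K hK hC F m s hF hed hdeg hsK v hv hp
    rcases hδd.eq_or_lt with h1 | h1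
    · -- δ = d
      rw [h1, div_self hdr.ne', sub_self, zero_mul, zero_mul, add_zero, ← hGdef]
      rw [h1] at hvt
      exact hvt p2
    · have hlt : s < m + 1 := by
        rcases hsn.eq_or_lt with h2 | h2
        · exact absurd (hreg h2) (by omega)
        · exact h2
      have hpδ : 0 < AA d (K + 1) ((m + 1 : ℕ) : ℝ) ((s : ℝ) - δ) := by
        have hcδ : (s : ℝ) - δ = ((s - δ : ℕ) : ℝ) := by rw [Nat.cast_sub (by omega)]
        rw [hcδ]
        exact AApos1 d K (m + 1) (s - δ) hd hK (by omega) (by omega) (Or.inl (by omega))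
      have hvt' := hvt hpδ
      rcases Nat.eq_zero_or_pos δ with h0 | h0
      · -- δ = 0
        have hnb : nb G F v = ∅ := Finset.card_eq_zero.1 (by omega)
        rw [h0, hnb, Finset.sdiff_empty] at hvt'
        have e1 : (s : ℝ) - ((0 : ℕ) : ℝ) = s := by push_cast; ring
        rw [e1, hGdef] at hvt'
        rw [h0, hnb, Finset.sdiff_empty]
        push_cast at hvt' ⊢
        rw [zero_div, sub_zero, one_mul]
        linarith
      · -- 1 ≤ δ < d
        have hmu : 0 ≤ 1 - (δ : ℝ) / d := by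
          rw [sub_nonneg, div_le_one hdr]; exact_mod_cast hδd
        have hz := hch v hv h0 h1 hlt
        have hf : (0 : ℝ) < ((m + 1 : ℕ) : ℝ) + s := by
          have h2 : (0 : ℝ) ≤ s := Nat.cast_nonneg _
          have h3 : (0 : ℝ) ≤ m := Nat.cast_nonneg _
          push_cast; linarith
        have hz' : (cnt G (F \ nb G F v) (K + 1) : ℝ) ≤
            (1 - (δ : ℝ) / (((m + 1 : ℕ) : ℝ) + s)) * cnt G F (K + 1) := by
          have e3 : (1 - (δ : ℝ) / (((m + 1 : ℕ) : ℝ) + s)) * (cnt G F (K + 1) : ℝ) =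
              (((m + 1 : ℕ) : ℝ) + s - δ) * cnt G F (K + 1) / (((m + 1 : ℕ) : ℝ) + s) := by
            field_simp
          rw [e3, le_div_iff₀ hf]
          linarith
        have hfa := H84.faa d (K + 1) (m + 1) s δ hd (by omega) (by simpa using hsK) hlt h0 h1
        rw [hGdef ((s : ℝ) - d), hGdef s] at hfa
        exact vertex_chord hZ0 hvt' hz' (hmono hlt) hmu hik0 hfa

end Pool.Agent.Lib.MP_99e3ed_co.H87
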