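import Pool.Agent.Lib.MP_99e3ed_co.H87.Claim

/-!
The LP step, kind `T`.
-/

set_option autoImplicit false

open Finset
open Classical
open Pool.Agent.Lib.MP_99e3ed_co.H90
open Pool.Agent.Lib.MP_99e3ed_co.Ratio
open Pool.Agent.MP_99e3ed_co

namespace Pool.Agent.Lib.MP_99e3ed_co.H87

variable {V : Type*} (G : SimpleGraph V)

/-- the true bound for a vertex of degree `δ`, kind `T` -/
lemma vertexT (d K : ℕ) (hd : 3 ≤ d) (hK : 1 ≤ K) (hC : Claim G d (K + 1)) (F : Finset V)
    (n s : ℕ) (hF : F.card = n + s) (hed : 2 * (d * s) ≤ ed G F F)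
    (hdeg : ∀ u ∈ F, (nb G F u).card ≤ d) (hsK : s < K * d)
    (hKn : K + 1 ≤ n) (v : V) (hv : v ∈ F) (hcard : K + 1 + (nb G F v).card ≤ n + s) :
    GTp d (K + 1) n ((s : ℝ) - (nb G F v).card) * cnt G (F \ nb G F v) (K + 1) ≤
      cnt G (del G F v) K := by
  obtain ⟨m, rfl⟩ : ∃ m, n = m + 1 := ⟨n - 1, by omega⟩
  set δ := (nb G F v).card with hδ
  rcases Nat.lt_or_ge δ s with h | h
  · obtain ⟨f1, f2, f3⟩ := del_facts G F v hv d m s hF hed hdeg h.le
    have hcast : (s : ℝ) - δ = ((s - δ : ℕ) : ℝ) := by rw [Nat.cast_sub h.le]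
    rw [hcast]
    have hs' : 1 ≤ s - δ := by omega
    have hs'r : (1 : ℝ) ≤ ((s - δ : ℕ) : ℝ) := by exact_mod_cast hs'
    have hlt : s - δ < K * d := by omega
    have hr := ratioT G d K hd hK hC (del G F v) m (s - δ) f1 f2 f3 hs' hlt
    unfold GTp
    rw [if_neg (by linarith)]
    unfold GT
    simp only [Nat.add_sub_cancel]
    have hlt2 : s - δ < (K + 1) * d := by
      have : K * d ≤ (K + 1) * d := Nat.mul_le_mul_right _ (by omega)
      omega
    have hpos : 0 < TT d (K + 1) (m + 1) ((s - δ : ℕ) : ℝ) := by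
      refine H84.ttPos d (K + 1) (m + 1) _ (by omega) hKn ?_ (by exact_mod_cast hlt2)
      have : (0 : ℝ) ≤ d := Nat.cast_nonneg _
      linarith
    exact ratio_to_vertex G F v hv K _ _ _ _ hpos (H84.ttPascal d K m _ (by omega)) rfl hr
  · have hle : (s : ℝ) - δ ≤ 0 := by
      have : (s : ℝ) ≤ δ := by exact_mod_cast h
      linarith
    unfold GTp
    rw [if_pos hle]
    have h1 := card_del G F v hv
    have h2 := cnt_upper G (del G F v) K
    have h2' : ((K : ℝ) + 1) * cnt G (del G F v) (K + 1) + K * cnt G (del G F v) K ≤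
        (del G F v).card * cnt G (del G F v) K := by exact_mod_cast h2
    have h1' : ((del G F v).card : ℝ) + δ + 1 = (m : ℝ) + 1 + s := by
      have : (del G F v).card + δ + 1 = m + 1 + s := by omega
      exact_mod_cast this
    have hpos : (0 : ℝ) < ((m + 1 : ℕ) : ℝ) + (s - δ) := by
      have : ((K + 1 + δ : ℕ) : ℝ) ≤ ((m + 1 + s : ℕ) : ℝ) := by exact_mod_cast hcard
      push_cast at this ⊢
      have : (0 : ℝ) ≤ K := Nat.cast_nonneg _
      linarith
    rw [cnt_sdiff_nb G F v hv K, div_mul_eq_mul_div, div_le_iff₀ hpos]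
    push_cast
    have e : (m : ℝ) + 1 + (s - δ) = (del G F v).card + 1 := by linarith
    rw [e]
    linarith

/-- `G_- ≤ G'` at `s - d` -/
lemma GT_le_GTp (d K n s : ℕ) (hd : 1 ≤ d) (hKn : K + 1 ≤ n) (δ : ℕ) (hδ : δ ≤ d)
    (hcard : K + 1 + δ ≤ n + s) :
    GT d (K + 1) n ((s : ℝ) - δ) ≤ GTp d (K + 1) n ((s : ℝ) - δ) := by
  unfold GTp
  split_ifs with h
  · have hδr : (δ : ℝ) ≤ d := by exact_mod_cast hδ
    have hs0 : (0 : ℝ) ≤ s := Nat.cast_nonneg _
    have hneg := H84.ttNeg d (K + 1) n ((s : ℝ) - δ) hd (by omega) hKn (by linarith) h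
    have hpos : 0 < TT d (K + 1) n ((s : ℝ) - δ) := by
      refine H84.ttPos d (K + 1) n _ hd hKn (by linarith) ?_
      have : (0 : ℝ) < ((K + 1 : ℕ) : ℝ) * d := by
        have : (0 : ℝ) < d := by exact_mod_cast hd
        positivity
      linarith
    have hn : (0 : ℝ) < (n : ℝ) + ((s : ℝ) - δ) := by
      have : ((K + 1 + δ : ℕ) : ℝ) ≤ ((n + s : ℕ) : ℝ) := by exact_mod_cast hcard
      push_cast at this
      have : (0 : ℝ) ≤ K := Nat.cast_nonneg _
      linarith
    unfold GT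
    rw [div_le_div_iff₀ hpos hn]
    linarith
  · exact le_rfl

/-- monotonicity and (F-A) for all levels `K+1 ≥ 2` -/
lemma fat_all (d K n s : ℕ) (hd : 2 ≤ d) (hK : 1 ≤ K) (hKn : K + 2 ≤ n) (hs1 : 1 ≤ s)
    (hsn : s < n) (hsK : s ≤ K * d) :
    GT d (K + 1) n s ≤ GT d (K + 1) n ((s : ℝ) - d) ∧
    ∀ δ : ℕ, δ ≤ d → K + 1 + δ ≤ n + s →
      (1 - (δ : ℝ) / (n + s)) * (GT d (K + 1) n ((s : ℝ) - d) - GTp d (K + 1) n ((s : ℝ) - δ)) ≤
        (1 - (δ : ℝ) / d) * (GT d (K + 1) n ((s : ℝ) - d) - GT d (K + 1) n s) := by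
  obtain ⟨L, rfl⟩ : ∃ L, K = L + 1 := ⟨K - 1, by omega⟩
  obtain ⟨N, rfl⟩ : ∃ N, n = N + 1 := ⟨n - 1, by omega⟩
  have hd0 : 0 < d := by omega
  have hdr : (0 : ℝ) < d := by exact_mod_cast hd0
  have hs1r : (1 : ℝ) ≤ s := by exact_mod_cast hs1
  have hS1 : (s : ℝ) ≤ ((L : ℝ) + 1) * d := by exact_mod_cast hsK
  have hS2 : (s : ℝ) ≤ N := by exact_mod_cast Nat.lt_succ_iff.1 hsn
  have e : L + 1 + 1 = L + 2 := rfl
  rw [e]
  constructor
  · obtain ⟨_, a2, a3, a4, _, _⟩ := H84.fat_real (d := d) (K := L) (N := N) hd (by omega)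
      (S := s) (x := s) (by linarith) hS1 hS2 (by linarith) le_rfl rfl (by
        have : (0 : ℝ) ≤ N := Nat.cast_nonneg _
        linarith)
    rw [H84.GT_eq hd0, H84.GT_eq hd0]
    exact one_div_le_one_div_of_le a3 a4
  · intro δ hδ hcard
    have hδr : (δ : ℝ) ≤ d := by exact_mod_cast hδ
    have hδ0 : (0 : ℝ) ≤ δ := Nat.cast_nonneg _
    have hcr : (L : ℝ) + 1 + 1 + δ ≤ N + 1 + s := by exact_mod_cast hcard
    have hL0 : (0 : ℝ) ≤ L := Nat.cast_nonneg _
    obtain ⟨a1, a2, a3, a4, a5, a6⟩ := H84.fat_real (d := d) (K := L) (N := N) hd (by omega)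
      (S := s) (x := (s : ℝ) - δ) (by linarith) hS1 hS2 (by linarith) (by linarith) rfl (by
        linarith)
    have hG : GTp d (L + 2) (N + 1) ((s : ℝ) - δ) = 1 / (if (s : ℝ) - δ ≤ 0 then
        ((N : ℝ) + 1 + ((s : ℝ) - δ)) / (L + 2) else
        H84.wf (H84.TT d) (L + 2) (N + 1) ((s : ℝ) - δ)) := by
      unfold GTp
      split_ifs with h
      · push_cast
        rw [one_div_div]
      · rw [H84.GT_eq hd0]
    rw [hG, H84.GT_eq hd0, H84.GT_eq hd0]
    have hf : (0 : ℝ) < ((N + 1 : ℕ) : ℝ) + s := by push_cast; linarith [(Nat.cast_nonneg N : (0:ℝ) ≤ N)]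
    refine H84.final_ineq a2 a3 a1 ?_ ?_ ?_ ?_ a4
    · rw [sub_nonneg, div_le_one hf]
      push_cast
      linarith
    · rw [sub_nonneg, div_le_one hdr]; exact hδr
    · have e1 : (s : ℝ) - ((s : ℝ) - δ) = δ := by ring
      rw [e1] at a6
      have e2 : 1 - (1 - (δ : ℝ) / d) = δ / d := by ring
      rw [e2]
      exact a6
    · have e3 : 1 - (δ : ℝ) / (((N + 1 : ℕ) : ℝ) + s) =
          ((N : ℝ) + 1 + (s - δ)) / (((N + 1 : ℕ) : ℝ) + s) := by
        field_simp
        push_cast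
        ring
      rw [e3, div_mul_eq_mul_div, div_le_iff₀ hf]
      push_cast
      linarith

/-- the LP step, kind `T` -/
theorem stepT (d K : ℕ) (hd : 3 ≤ d) (hK : 1 ≤ K) (hC : Claim G d (K + 1)) (F : Finset V)
    (n s : ℕ) (hF : F.card = n + s) (hed : 2 * (d * s) ≤ ed G F F)
    (hdeg : ∀ u ∈ F, (nb G F u).card ≤ d) (hs1 : 1 ≤ s) (hsK : s < K * d) (hKn : K + 2 ≤ n)
    (hch : ∀ v ∈ F, 1 ≤ (nb G F v).card → (nb G F v).card < d → s < n →
      K + 1 + (nb G F v).card ≤ n + s →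
      ∃ ze : ℝ, (cnt G (F \ nb G F v) (K + 1) : ℝ) ≤ ze * cnt G F (K + 1) ∧
        ze * (GT d (K + 1) n ((s : ℝ) - d) - GTp d (K + 1) n ((s : ℝ) - (nb G F v).card)) ≤
          (1 - ((nb G F v).card : ℝ) / d) *
            (GT d (K + 1) n ((s : ℝ) - d) - GT d (K + 1) n s)) :
    (cnt G F (K + 2) : ℝ) * TT d (K + 1) n s ≤ TT d (K + 2) n s * cnt G F (K + 1) := by
  have hsn := s_le_n G F d n s (by omega) hF hed hdeg
  have hdr : (0 : ℝ) < d := by
    have : 0 < d := by omega
    exact_mod_cast this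
  have hs1r : (1 : ℝ) ≤ s := by exact_mod_cast hs1
  have hsKr : (s : ℝ) < K * d := by exact_mod_cast hsK
  have hK0 : (0 : ℝ) ≤ K := Nat.cast_nonneg _
  obtain ⟨m, rfl⟩ : ∃ m, n = m + 1 := ⟨n - 1, by omega⟩
  have p1 : 0 < TT d (K + 1) (m + 1) s :=
    H84.ttPos d (K + 1) (m + 1) s (by omega) (by omega) (by linarith) (by push_cast; nlinarith)
  have p2 : 0 < TT d (K + 1) (m + 1) ((s : ℝ) - d) :=
    H84.ttPos d (K + 1) (m + 1) _ (by omega) (by omega) (by linarith) (by push_cast; nlinarith)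
  have p3 : 0 < TT d K m ((s : ℝ) - d) :=
    H84.ttPos d K m _ (by omega) (by omega) (by linarith) (by linarith)
  -- monotonicity
  have hmono : s < m + 1 → TT d K m s / TT d (K + 1) (m + 1) s ≤
      TT d K m ((s : ℝ) - d) / TT d (K + 1) (m + 1) ((s : ℝ) - d) := by
    intro h
    have := (fat_all d K (m + 1) s (by omega) hK hKn hs1 h hsK.le).1
    unfold GT at this
    simpa using this
  have hedr : 2 * ((d : ℝ) * s) ≤ ed G F F := by exact_mod_cast hed
  refine lp G F d K (m + 1) s (by omega) hF 1 (TT d (K + 1) (m + 1) s)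
    (TT d (K + 1) (m + 1) ((s : ℝ) - d)) (TT d K m s) (TT d K m ((s : ℝ) - d))
    (TT d (K + 2) (m + 1) s) p1 p2 p3 ?_ ?_ ?_ ?_
  · have := H84.ttRec d K m s (by omega)
    push_cast
    linarith
  · have h1 := H64.TT_same (d := d) (by omega) (K + 1) (m + 1) (s : ℝ)
    push_cast at h1 ⊢
    linarith
  · rcases hsn.eq_or_lt with h | h
    · have h1 : ed G F F ≤ F.card * d := ed_le G F F d hdeg
      have h1' : (ed G F F : ℝ) ≤ (((m + 1 : ℕ) : ℝ) + s) * d := by
        rw [hF] at h1; exact_mod_cast h1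
      have h2 : (s : ℝ) = ((m + 1 : ℕ) : ℝ) := by exact_mod_cast h
      have h3 : (ed G F F : ℝ) = 2 * (d * s) := by
        refine le_antisymm ?_ hedr
        rw [← h2] at h1'
        linarith
      rw [h3]
      have h4 : 2 * ((d : ℝ) * s) / d = 2 * s := by field_simp
      rw [h4, ← h2]
      have h5 : (s : ℝ) + s - 2 * s = s - s := by ring
      rw [h5]
    · refine mul_le_mul_of_nonneg_right ?_ (sub_nonneg.2 (hmono h))
      have h4 : 2 * (s : ℝ) ≤ (ed G F F : ℝ) / d := by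
        rw [le_div_iff₀ hdr]; linarith
      linarith
  · intro v hv
    set δ := (nb G F v).card with hδ
    have hδd : δ ≤ d := hdeg v hv
    have hx0 : (0 : ℝ) ≤ cnt G (del G F v) K := Nat.cast_nonneg _
    have hZ0 : (0 : ℝ) ≤ cnt G (F \ nb G F v) (K + 1) := Nat.cast_nonneg _
    have hik0 : (0 : ℝ) ≤ cnt G F (K + 1) := Nat.cast_nonneg _
    have hGdef : ∀ x : ℝ, GT d (K + 1) (m + 1) x = TT d K m x / TT d (K + 1) (m + 1) x := by
      intro x; unfold GT; simp
    -- the counts vanish if there are too few vertices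
    have hZz : m + 1 + s < K + 1 + δ → (cnt G (F \ nb G F v) (K + 1) : ℝ) = 0 := by
      intro h
      have h1 : (F \ nb G F v).card + δ = F.card := by
        have := Finset.card_sdiff_add_card_eq_card (show nb G F v ⊆ F from Finset.filter_subset _ _)
        omega
      have h2 := cnt_le_choose G (F \ nb G F v) (K + 1)
      rw [Nat.choose_eq_zero_of_lt (by omega)] at h2
      have : cnt G (F \ nb G F v) (K + 1) = 0 := by omega
      exact_mod_cast this
    -- all degrees are `d` if `s = n`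
    have hreg : s = m + 1 → δ = d := by
      intro h
      have h1 : ed G F F = ∑ u ∈ F, (nb G F u).card := rfl
      have h2 : ∑ u ∈ F, (nb G F u).card + (d - δ) ≤ ∑ u ∈ F, d := by
        rw [← Finset.add_sum_erase F _ hv, ← Finset.add_sum_erase F (fun _ => d) hv]
        have h3 : ∑ u ∈ F.erase v, (nb G F u).card ≤ ∑ u ∈ F.erase v, d :=
          Finset.sum_le_sum fun u hu => hdeg u (Finset.mem_of_mem_erase hu)
        omega
      rw [Finset.sum_const, smul_eq_mul, hF] at h2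
      have h4 : 2 * (d * s) + (d - δ) ≤ (m + 1 + s) * d := by omega
      rw [← h] at h4
      have h5 : (s + s) * d = 2 * (d * s) := by ring
      omega
    rcases Nat.eq_zero_or_pos δ with h0 | h0
    · -- δ = 0
      have hnb : nb G F v = ∅ := Finset.card_eq_zero.1 (by omega)
      have hvt := vertexT G d K hd hK hC F (m + 1) s hF hed hdeg hsK (by omega) v hv (by omega)
      rw [← hδ, h0] at hvt
      have e1 : GTp d (K + 1) (m + 1) ((s : ℝ) - (0 : ℕ)) = GT d (K + 1) (m + 1) s := by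
        unfold GTp
        rw [if_neg (by push_cast; linarith)]
        congr 1
        push_cast; ring
      rw [e1, hGdef, hnb, Finset.sdiff_empty] at hvt
      rw [h0, hnb, Finset.sdiff_empty]
      push_cast
      rw [zero_div, sub_zero, one_mul]
      linarith
    rcases hδd.eq_or_lt with h1 | h1
    · -- δ = d
      rw [h1, div_self hdr.ne', sub_self, zero_mul, zero_mul, add_zero]
      by_cases hc : K + 1 + d ≤ m + 1 + s
      · have hvt := vertexT G d K hd hK hC F (m + 1) s hF hed hdeg hsK (by omega) v hv (by omega)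
        rw [← hδ, h1] at hvt
        have h2 := GT_le_GTp d K (m + 1) s (by omega) (by omega) d le_rfl hc
        rw [hGdef] at h2
        exact (mul_le_mul_of_nonneg_right h2 hZ0).trans hvt
      · rw [hZz (by omega), mul_zero]
        exact hx0
    · -- 1 ≤ δ < d
      have hlt : s < m + 1 := by
        rcases hsn.eq_or_lt with h2 | h2
        · exact absurd (hreg h2) (by omega)
        · exact h2
      have hmu : 0 ≤ 1 - (δ : ℝ) / d := by
        rw [sub_nonneg, div_le_one hdr]; exact_mod_cast hδd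
      by_cases hc : K + 1 + δ ≤ m + 1 + s
      · obtain ⟨ze, z1, z2⟩ := hch v hv h0 h1 hlt hc
        have hvt := vertexT G d K hd hK hC F (m + 1) s hF hed hdeg hsK (by omega) v hv hc
        rw [hGdef, hGdef] at z2
        exact vertex_chord hZ0 hvt z1 (hmono hlt) hmu hik0 z2
      · rw [hZz (by omega), mul_zero]
        have := mul_nonneg (mul_nonneg hmu (sub_nonneg.2 (hmono hlt))) hik0
        linarith

end Pool.Agent.Lib.MP_99e3ed_co.H87
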