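import Pool.Agent.Lib.MP_99e3ed_co.H87.MM
import Pool.Agent.Lib.MP_99e3ed_co.Ratio.Interfaces
import Pool.Agent.Lib.MP_99e3ed_co.H98.ZFinal

/-!
The graph part of (Z).
-/

set_option autoImplicit false

open Finset
open Classical
open Pool.Agent.Lib.MP_99e3ed_co.H90
open Pool.Agent.Lib.MP_99e3ed_co.Ratio

namespace Pool.Agent.Lib.MP_99e3ed_co.H87

section graph

variable {V : Type*} (G : SimpleGraph V)

lemma cnt_mono {S T : Finset V} (h : S ⊆ T) (k : ℕ) : cnt G S k ≤ cnt G T k := by
  rw [← card_IS, ← card_IS]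
  refine Finset.card_le_card ?_
  intro I hI
  rw [mem_IS] at hI ⊢
  exact ⟨⟨hI.1.1.trans h, hI.1.2⟩, hI.2⟩

lemma mem_del {S : Finset V} {v u : V} : u ∈ del G S v ↔ u ∈ S ∧ u ≠ v ∧ ¬ G.Adj v u := by
  unfold del; rw [Finset.mem_filter]

lemma mem_nb {S : Finset V} {v u : V} : u ∈ nb G S v ↔ u ∈ S ∧ G.Adj v u := by
  unfold nb; rw [Finset.mem_filter]

/-- deletion-contraction -/
lemma cnt_erase (S : Finset V) (x : V) (hx : x ∈ S) (k : ℕ) :
    cnt G S (k + 1) = cnt G (S.erase x) (k + 1) + cnt G (del G S x) k := by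
  have hins : (IS G (del G S x) k).card = ((IS G S (k + 1)).filter (fun I => x ∈ I)).card := by
    refine Finset.card_bij' (fun J _ => insert x J) (fun I _ => I.erase x) ?_ ?_ ?_ ?_
    · intro J hJ
      rw [mem_IS] at hJ
      rw [Finset.mem_filter, mem_IS]
      have hxJ : x ∉ J := fun h => (mem_del G |>.1 (hJ.1.1 h)).2.1 rfl
      refine ⟨⟨⟨?_, ?_⟩, ?_⟩, Finset.mem_insert_self _ _⟩
      · intro u hu
        rw [Finset.mem_insert] at hu
        rcases hu with rfl | hu
        · exact hx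
        · exact (mem_del G |>.1 (hJ.1.1 hu)).1
      · rw [Finset.card_insert_of_notMem hxJ, hJ.1.2]
      · have h3 := hJ.2
        rw [indep_iff] at h3 ⊢
        intro a ha b hb
        rw [Finset.mem_insert] at ha hb
        rcases ha with rfl | ha <;> rcases hb with rfl | hb
        · exact G.loopless.irrefl _
        · exact (mem_del G |>.1 (hJ.1.1 hb)).2.2
        · intro hab
          exact (mem_del G |>.1 (hJ.1.1 ha)).2.2 hab.symm
        · exact h3 a ha b hb
    · intro I hI
      rw [Finset.mem_filter, mem_IS] at hI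
      rw [mem_IS]
      have h3 := hI.1.2
      rw [indep_iff] at h3
      refine ⟨⟨?_, ?_⟩, ?_⟩
      · intro u hu
        rw [Finset.mem_erase] at hu
        rw [mem_del]
        exact ⟨hI.1.1.1 hu.2, hu.1, h3 x hI.2 u hu.2⟩
      · rw [Finset.card_erase_of_mem hI.2, hI.1.1.2]; rfl
      · rw [indep_iff]
        intro a ha b hb
        exact h3 a (Finset.mem_of_mem_erase ha) b (Finset.mem_of_mem_erase hb)
    · intro J hJ
      rw [mem_IS] at hJ
      have hxJ : x ∉ J := fun h => (mem_del G |>.1 (hJ.1.1 h)).2.1 rfl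
      exact Finset.erase_insert hxJ
    · intro I hI
      rw [Finset.mem_filter] at hI
      exact Finset.insert_erase hI.2
  have hnot : IS G (S.erase x) (k + 1) = (IS G S (k + 1)).filter (fun I => x ∉ I) := by
    ext I
    rw [Finset.mem_filter, mem_IS, mem_IS]
    constructor
    · rintro ⟨⟨h1, h2⟩, h3⟩
      exact ⟨⟨⟨h1.trans (Finset.erase_subset _ _), h2⟩, h3⟩,
        fun h => (Finset.mem_erase.1 (h1 h)).1 rfl⟩
    · rintro ⟨⟨⟨h1, h2⟩, h3⟩, h4⟩
      exact ⟨⟨fun u hu => Finset.mem_erase.2 ⟨fun h => h4 (h ▸ hu), h1 hu⟩, h2⟩, h3⟩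
  rw [← card_IS, ← card_IS, ← card_IS, hins, hnot,
    add_comm ((IS G S (k + 1)).filter (fun I => x ∉ I)).card]
  exact (Finset.card_filter_add_card_filter_not (s := IS G S (k + 1)) (fun I => x ∈ I)).symm

lemma cnt_insert_le (Q : Finset V) (u : V) (hu : u ∉ Q) (k : ℕ) :
    cnt G (insert u Q) (k + 1) ≤ cnt G Q (k + 1) + cnt G Q k := by
  rw [cnt_erase G (insert u Q) u (Finset.mem_insert_self _ _), Finset.erase_insert hu]
  refine Nat.add_le_add_left (cnt_mono G ?_ k) _
  intro y hy
  rw [mem_del, Finset.mem_insert] at hy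
  exact hy.1.resolve_left hy.2.1

lemma cnt_union_le (P : Finset V) :
    ∀ W : Finset V, Disjoint P W → ∀ k : ℕ,
      cnt G (P ∪ W) k ≤ ∑ h ∈ range (k + 1), W.card.choose h * cnt G P (k - h) := by
  intro W
  induction W using Finset.induction_on with
  | empty =>
    intro _ k
    rw [Finset.union_empty, Finset.sum_range_succ']
    simp
  | insert u W huW ih =>
    intro hd k
    rw [Finset.disjoint_insert_right] at hd
    rw [Finset.union_insert]
    have huQ : u ∉ P ∪ W := by
      rw [Finset.mem_union]; push Not; exact ⟨hd.1, huW⟩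
    cases k with
    | zero => rw [cnt_zero]; simp [cnt_zero]
    | succ k =>
      refine (cnt_insert_le G _ u huQ k).trans ?_
      refine (Nat.add_le_add (ih hd.2 (k + 1)) (ih hd.2 k)).trans ?_
      rw [Finset.card_insert_of_notMem huW]
      rw [Finset.sum_range_succ' (fun h => (W.card + 1).choose h * cnt G P (k + 1 - h)),
        Finset.sum_range_succ' (fun h => W.card.choose h * cnt G P (k + 1 - h))]
      have : ∑ h ∈ range (k + 1), (W.card + 1).choose (h + 1) * cnt G P (k + 1 - (h + 1)) =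
          ∑ h ∈ range (k + 1), W.card.choose (h + 1) * cnt G P (k + 1 - (h + 1)) +
          ∑ h ∈ range (k + 1), W.card.choose h * cnt G P (k - h) := by
        rw [← Finset.sum_add_distrib]
        refine Finset.sum_congr rfl fun h _ => ?_
        rw [Nat.choose_succ_succ]
        have : k + 1 - (h + 1) = k - h := by omega
        rw [this]
        ring
      rw [this]
      simp only [Nat.choose_zero_right, one_mul]
      omega

lemma erase_eq (H : Finset V) (x : V) : H.erase x = del G H x ∪ nb G H x := by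
  ext u
  rw [Finset.mem_erase, Finset.mem_union, mem_del, mem_nb]
  constructor
  · rintro ⟨h1, h2⟩
    by_cases h : G.Adj x u
    · exact Or.inr ⟨h2, h⟩
    · exact Or.inl ⟨h2, h1, h⟩
  · rintro (⟨h1, h2, _⟩ | ⟨h1, h2⟩)
    · exact ⟨h2, h1⟩
    · exact ⟨h2.ne', h1⟩

lemma del_nb_disjoint (H : Finset V) (x : V) : Disjoint (del G H x) (nb G H x) := by
  rw [Finset.disjoint_left]
  intro u hu hu'
  exact (mem_del G |>.1 hu).2.2 (mem_nb G |>.1 hu').2

/-- one deletion -/
lemma z_step (H : Finset V) (x : V) (hx : x ∈ H) (k : ℕ)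
    (hsum : ∑ h ∈ range (k + 2), ((nb G H x).card.choose h : ℝ) * cnt G (del G H x) (k + 1 - h) ≤
      ((del G H x).card + (nb G H x).card : ℝ) * cnt G (del G H x) k) :
    (H.card : ℝ) * cnt G (H.erase x) (k + 1) ≤ ((H.card : ℝ) - 1) * cnt G H (k + 1) := by
  have h1 := cnt_erase G H x hx k
  have h2 := cnt_union_le G (del G H x) (nb G H x) (del_nb_disjoint G H x) (k + 1)
  rw [← erase_eq] at h2
  have h2' : (cnt G (H.erase x) (k + 1) : ℝ) ≤
      ∑ h ∈ range (k + 2), ((nb G H x).card.choose h : ℝ) * cnt G (del G H x) (k + 1 - h) := by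
    exact_mod_cast h2
  have h3 := card_del G H x hx
  have h3' : ((del G H x).card : ℝ) + (nb G H x).card + 1 = H.card := by exact_mod_cast h3
  have h1' : (cnt G H (k + 1) : ℝ) = cnt G (H.erase x) (k + 1) + cnt G (del G H x) k := by
    exact_mod_cast h1
  have h4 := h2'.trans hsum
  rw [h1']
  have h5 : ((del G H x).card + (nb G H x).card : ℝ) = H.card - 1 := by linarith
  rw [h5] at h4
  nlinarith

lemma nb_mono {S T : Finset V} (h : S ⊆ T) (v : V) : (nb G S v).card ≤ (nb G T v).card := by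
  refine Finset.card_le_card ?_
  intro u hu
  rw [mem_nb] at hu ⊢
  exact ⟨h hu.1, hu.2⟩

/-- removing one vertex removes `deg` edges -/
lemma ed_erase (H : Finset V) (x : V) (hx : x ∈ H) :
    ed G H H = ed G (H.erase x) (H.erase x) + 2 * (nb G H x).card := by
  have h1 : ∀ A : Finset V, ed G A H = ed G A (H.erase x) + ed G A {x} := by
    intro A
    have : H = H.erase x ∪ {x} := by
      rw [Finset.union_comm, ← Finset.insert_eq, Finset.insert_erase hx]
    conv_lhs => rw [this]
    rw [ed_union G A _ _ (by simp)]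
  have a1 := h1 H
  have a2 := h1 (H.erase x)
  have a3 : ed G H {x} = ed G {x} H := ed_comm G _ _
  have a4 : ed G H (H.erase x) = ed G (H.erase x) H := ed_comm G _ _
  have a5 : ed G (H.erase x) {x} = ed G {x} (H.erase x) := ed_comm G _ _
  have a6 := h1 {x}
  have a7 : ed G {x} {x} = 0 := by
    refine ed_eq_zero G _ _ fun a ha b hb h => ?_
    rw [Finset.mem_singleton] at ha hb
    subst ha; subst hb
    exact G.loopless.irrefl _ h
  have a8 : ed G {x} H = (nb G H x).card := by
    rw [ed_eq, Finset.sum_singleton]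
  omega

lemma ed_mono {S T : Finset V} (h : S ⊆ T) : ed G S S ≤ ed G T T := by
  rw [ed_eq, ed_eq]
  calc ∑ v ∈ S, (nb G S v).card ≤ ∑ v ∈ S, (nb G T v).card :=
        Finset.sum_le_sum fun v _ => nb_mono G h v
    _ ≤ ∑ v ∈ T, (nb G T v).card := Finset.sum_le_sum_of_subset h

/-- abstract deletion chain: `W` is deleted one vertex at a time, always a vertex of largest
current degree -/
lemma z_chain (S W : Finset V) (k d : ℕ) (hWS : W ⊆ S) (hdeg : ∀ u ∈ S, (nb G S u).card ≤ d)
    (v : V) (hv : v ∈ S) (hvW : v ∉ W) (hadj : ∀ u ∈ W, G.Adj v u)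
    (hstep : ∀ (H : Finset V) (x : V) (i : ℕ), x ∈ H → H ⊆ S → 1 ≤ i → i ≤ W.card →
      H.card + i = S.card + 1 → 1 ≤ (nb G H x).card → (nb G H x).card ≤ d →
      ed G (del G H x) (del G H x) + 2 * (i * (nb G H x).card) ≤ ed G S S →
      (H.card : ℝ) * cnt G (H.erase x) k ≤ ((H.card : ℝ) - 1) * cnt G H k) :
    (S.card : ℝ) * cnt G (S \ W) k ≤ ((S.card : ℝ) - W.card) * cnt G S k := by
  -- claim: for every m ≤ |W| there is D ⊆ W with |D| = m and the invariants
  have key : ∀ m : ℕ, m ≤ W.card → ∃ D : Finset V, D ⊆ W ∧ D.card = m ∧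
      (∀ u ∈ W \ D, ed G (S \ D) (S \ D) + 2 * (m * (nb G (S \ D) u).card) ≤ ed G S S) ∧
      (S.card : ℝ) * cnt G (S \ D) k ≤ ((S.card : ℝ) - m) * cnt G S k := by
    intro m
    induction m with
    | zero =>
      intro _
      refine ⟨∅, Finset.empty_subset _, rfl, ?_, ?_⟩
      · intro u _; simp
      · simp
    | succ m ih =>
      intro hm
      obtain ⟨D, hDW, hDc, hinv, hle⟩ := ih (by omega)
      have hne : (W \ D).Nonempty := by
        rw [← Finset.card_pos, Finset.card_sdiff_of_subset hDW]; omega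
      obtain ⟨x, hxWD, hmax⟩ := Finset.exists_max_image (W \ D)
        (fun u => (nb G (S \ D) u).card) hne
      have hxW : x ∈ W := (Finset.mem_sdiff.1 hxWD).1
      have hxD : x ∉ D := (Finset.mem_sdiff.1 hxWD).2
      have hxH : x ∈ S \ D := Finset.mem_sdiff.2 ⟨hWS hxW, hxD⟩
      have hvH : v ∈ S \ D := Finset.mem_sdiff.2 ⟨hv, fun h => hvW (hDW h)⟩
      have hHc : (S \ D).card + m = S.card := by
        rw [Finset.card_sdiff_of_subset (hDW.trans hWS)]
        have := Finset.card_le_card (hDW.trans hWS)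
        omega
      have hw1 : 1 ≤ (nb G (S \ D) x).card := by
        refine Finset.card_pos.2 ⟨v, ?_⟩
        rw [mem_nb]
        exact ⟨hvH, (hadj x hxW).symm⟩
      have hwd : (nb G (S \ D) x).card ≤ d :=
        (nb_mono G Finset.sdiff_subset x).trans (hdeg x (hWS hxW))
      have hee := ed_erase G (S \ D) x hxH
      have hinvx := hinv x hxWD
      have hins : S \ insert x D = (S \ D).erase x := by
        ext u
        simp only [Finset.mem_sdiff, Finset.mem_insert, Finset.mem_erase]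
        tauto
      refine ⟨insert x D, ?_, ?_, ?_, ?_⟩
      · intro u hu
        rw [Finset.mem_insert] at hu
        rcases hu with rfl | hu
        · exact hxW
        · exact hDW hu
      · rw [Finset.card_insert_of_notMem hxD, hDc]
      · intro u hu
        rw [hins]
        have huWD : u ∈ W \ D := by
          rw [Finset.mem_sdiff, Finset.mem_insert] at hu
          rw [Finset.mem_sdiff]
          exact ⟨hu.1, fun h => hu.2 (Or.inr h)⟩
        have hum : (nb G ((S \ D).erase x) u).card ≤ (nb G (S \ D) x).card :=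
          (nb_mono G (Finset.erase_subset _ _) u).trans (hmax u huWD)
        have : (m + 1) * (nb G ((S \ D).erase x) u).card ≤ (m + 1) * (nb G (S \ D) x).card :=
          Nat.mul_le_mul_left _ hum
        nlinarith
      · rw [hins]
        have hdm : ed G (del G (S \ D) x) (del G (S \ D) x) ≤
            ed G ((S \ D).erase x) ((S \ D).erase x) := by
          refine ed_mono G ?_
          rw [erase_eq G]
          exact Finset.subset_union_left
        have hs := hstep (S \ D) x (m + 1) hxH Finset.sdiff_subset (by omega) hm (by omega)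
          hw1 hwd (by nlinarith)
        have hHc' : ((S \ D).card : ℝ) = (S.card : ℝ) - m := by
          have : ((S \ D).card : ℝ) + m = S.card := by exact_mod_cast hHc
          linarith
        have hpos : (0 : ℝ) < (S \ D).card := by exact_mod_cast Finset.card_pos.2 ⟨x, hxH⟩
        rw [hHc'] at hs hpos
        push_cast
        have hSc : (0 : ℝ) ≤ S.card := Nat.cast_nonneg _
        have hm1 : (m : ℝ) + 1 ≤ S.card := by
          have := Finset.card_le_card hWS
          have : m + 1 ≤ S.card := by omega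
          exact_mod_cast this
        have c1 : (S.card : ℝ) * (((S.card : ℝ) - m) * cnt G ((S \ D).erase x) k) ≤
            S.card * (((S.card : ℝ) - m - 1) * cnt G (S \ D) k) :=
          mul_le_mul_of_nonneg_left hs hSc
        have c2 : ((S.card : ℝ) - m - 1) * (S.card * cnt G (S \ D) k) ≤
            ((S.card : ℝ) - m - 1) * (((S.card : ℝ) - m) * cnt G S k) :=
          mul_le_mul_of_nonneg_left hle (by linarith)
        refine le_of_mul_le_mul_left (a := (S.card : ℝ) - m) ?_ hpos
        nlinarith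
  obtain ⟨D, hDW, hDc, _, hle⟩ := key W.card le_rfl
  have : D = W := Finset.eq_of_subset_of_card_le hDW hDc.ge
  rw [this] at hle
  exact hle

end graph

lemma k3_poly (d w N : ℝ) (hd : 3 ≤ d) (hw : 2 ≤ w) (hwd : w ≤ d) (hN : 2 * d + 2 ≤ N) :
    3 * (w * (w - 1)) * N + w * (w - 1) * (w - 2) ≤ 2 * (N + 1) * (N * (N - 1 - d)) := by
  have b1 : w * (w - 1) ≤ d * (d - 1) := by nlinarith
  have b2 : w * (w - 1) * (w - 2) ≤ d * (d - 1) * (d - 2) := by
    have h0 : w - 2 ≤ d - 2 := by linarith
    have h1 : (0 : ℝ) ≤ w - 2 := by linarith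
    have h2 : (0 : ℝ) ≤ d * (d - 1) := by nlinarith
    exact mul_le_mul b1 h0 h1 h2
  have b3 : 3 * (w * (w - 1)) * N ≤ 3 * (d * (d - 1)) * N := by
    have h0 : 0 ≤ N := by linarith
    nlinarith
  have b4 : 3 * (d * (d - 1)) * N + d * (d - 1) * (d - 2) ≤
      2 * (N + 1) * (N * (N - 1 - d)) := by
    obtain ⟨r, hr⟩ : ∃ r : ℝ, N = 2 * d + 2 + r := ⟨N - (2 * d + 2), by ring⟩
    have hr0 : 0 ≤ r := by linarith
    rw [hr]
    have hd0 : (0 : ℝ) ≤ d := by linarith
    have e : 2 * ((2 * d + 2 + r) + 1) * ((2 * d + 2 + r) * ((2 * d + 2 + r) - 1 - d)) -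
        (3 * (d * (d - 1)) * (2 * d + 2 + r) + d * (d - 1) * (d - 2)) =
        10 * d * r ^ 2 + 13 * d ^ 2 * r + d ^ 3 + 2 * r ^ 3 + 41 * d * r + 31 * d ^ 2 +
        12 * r ^ 2 + 36 * d + 22 * r + 12 := by ring
    have p : 0 ≤ 10 * d * r ^ 2 + 13 * d ^ 2 * r + d ^ 3 + 2 * r ^ 3 + 41 * d * r +
        31 * d ^ 2 + 12 * r ^ 2 + 36 * d + 22 * r + 12 := by positivity
    linarith
  linarith

lemma k3_fin (w N d i2 i3 c2' c3' : ℝ) (hN : 0 ≤ N + 1) (hi2ge : N * (N - 1 - d) / 2 ≤ i2)
    (hi3le : 3 * i3 ≤ (N - 2) * i2) (c2 : 2 * c2' = w * (w - 1))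
    (c3 : 6 * c3' = w * (w - 1) * (w - 2))
    (hgoal : 3 * (w * (w - 1)) * N + w * (w - 1) * (w - 2) ≤ 2 * (N + 1) * (N * (N - 1 - d))) :
    i3 + w * i2 + c2' * N + c3' ≤ (N + w) * i2 := by
  have q1 : 4 * (N + 1) * (N * (N - 1 - d) / 2) ≤ 4 * (N + 1) * i2 :=
    mul_le_mul_of_nonneg_left hi2ge (by linarith)
  have q2 : 6 * (c2' * N) = 3 * (w * (w - 1)) * N := by
    linear_combination (3 * N) * c2
  have q3 : 2 * (N + 1) * (N * (N - 1 - d)) = 4 * (N + 1) * (N * (N - 1 - d) / 2) := by ring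
  have q4 : 6 * ((N + w) * i2) - 6 * (w * i2) - 2 * ((N - 2) * i2) = 4 * (N + 1) * i2 := by ring
  linarith

/-- (Z) -/
theorem zz : ZZ := by
  intro V G S v d k n s hd hk hSc hdeg hed hv hδ1 hδd hreg
  have hSc' : (S.card : ℝ) = n + s := by exact_mod_cast hSc
  have main := z_chain G S (nb G S v) k d (Finset.filter_subset _ _) hdeg v hv
    (by rw [mem_nb]; exact fun h => G.loopless.irrefl _ h.2)
    (fun u hu => (mem_nb G |>.1 hu).2) ?_
  · rw [hSc'] at main
    exact main
  intro H x i hxH hHS hi1 hiW hHc hw1 hwd hE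
  obtain ⟨k, rfl⟩ : ∃ k', k = k' + 1 := ⟨k - 1, by omega⟩
  refine z_step G H x hxH k ?_
  set P := del G H x with hP
  set w := (nb G H x).card with hw
  have hcd : P.card + w + 1 = H.card := card_del G H x hxH
  have hPS : P ⊆ S := (Finset.filter_subset _ _).trans hHS
  have hup := cnt_upper G P k
  have hup' : ((k : ℝ) + 1) * cnt G P (k + 1) + k * cnt G P k ≤ P.card * cnt G P k := by
    exact_mod_cast hup
  have hid : i < d := by omega
  have hN : P.card + i + w = n + s := by omega
  -- the case w = 1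
  rcases Nat.lt_or_ge w 2 with hw2 | hw2
  · have hw1' : w = 1 := by omega
    rw [hw1', Finset.sum_range_succ', Finset.sum_range_succ']
    have hz : ∑ h ∈ range k, (((1 : ℕ).choose (h + 1 + 1) : ℕ) : ℝ) *
        (cnt G P (k + 1 - (h + 1 + 1)) : ℝ) = 0 := by
      refine Finset.sum_eq_zero fun h _ => ?_
      rw [Nat.choose_eq_zero_of_lt (by omega)]; simp
    rw [hz]
    simp only [Nat.choose_self, Nat.choose_zero_right, Nat.cast_one, one_mul,
      Nat.add_sub_cancel, Nat.sub_zero, zero_add]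
    have hc0 : (0 : ℝ) ≤ cnt G P (k + 1) := Nat.cast_nonneg _
    have hc1 : (0 : ℝ) ≤ cnt G P k := Nat.cast_nonneg _
    have hk0 : (2 : ℝ) ≤ k := by
      have : 2 ≤ k := by omega
      exact_mod_cast this
    nlinarith [mul_nonneg (by linarith : (0 : ℝ) ≤ k) hc0, mul_nonneg (by linarith : (0 : ℝ) ≤ k) hc1]
  -- edges of P
  have hE1 : ed G P P ≤ P.card * d := ed_le G P P d fun u hu =>
    (nb_mono G hPS u).trans (hdeg u (hPS hu))
  have hE1' : (ed G P P : ℝ) ≤ P.card * d := by exact_mod_cast hE1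
  have hE2 : (ed G P P : ℝ) ≤ 2 * (d * ((s : ℝ) + 1)) - 2 * (i * w) := by
    have h1 : ed G P P + 2 * (i * w) ≤ 2 * (d * (s + 1)) := hE.trans hed.le
    have h2 : (ed G P P : ℝ) + 2 * (i * w) ≤ 2 * (d * (s + 1)) := by exact_mod_cast h1
    linarith
  by_cases hcase : ZReg d (k + 1) n s ∨ (4 ≤ k + 1 ∧ (k + 1 - 1) * d ≤ s ∧ s < n)
  · have hup2 : (((k + 1 : ℕ) : ℝ)) * (cnt G P (k + 1) : ℝ) ≤
        ((P.card : ℝ) - ((k + 1 : ℕ) : ℝ) + 1) * cnt G P (k + 1 - 1) := by
      simp only [Nat.add_sub_cancel]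
      push_cast
      linarith
    have hmm : ∀ t, 1 ≤ t → t ≤ k + 1 - 1 →
        ((P.card : ℝ) - (t - 1) * (1 + (ed G P P : ℝ) / P.card)) * (cnt G P (t - 1) : ℝ) ≤
          t * cnt G P t := by
      intro t ht1 _
      obtain ⟨t, rfl⟩ : ∃ t', t = t' + 1 := ⟨t - 1, by omega⟩
      simp only [Nat.add_sub_cancel]
      rcases P.eq_empty_or_nonempty with hPe | hne
      · rw [hPe]
        cases t with
        | zero => simp [cnt_empty]
        | succ t => rw [cnt_empty, cnt_empty]; simp
      · have := moon_moser_lin G P hne t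
        push_cast
        linarith
    exact (H98.zcount d (k + 1) n s i w P.card (ed G P P) (fun t => (cnt G P t : ℝ)) hd hk hi1
      hid hw2 hwd hN (Nat.cast_nonneg _) hE1' hE2 hcase (fun _ => Nat.cast_nonneg _)
      hup2 hmm).2
  · -- k + 1 = 3 and kind A
    have hk3 : k = 2 := by
      by_contra hne
      apply hcase
      rcases hreg with h | h
      · exact Or.inl h
      · exact Or.inr ⟨by omega, h⟩
    subst hk3
    have hA3 : 2 * d ≤ s ∧ s < n := by
      rcases hreg with h | h
      · exact absurd (Or.inl h) hcase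
      · exact h
    have h2 := cnt_two G P
    have h2' : 2 * (cnt G P 2 : ℝ) + P.card + ed G P P = P.card * P.card := by exact_mod_cast h2
    have hNge : 2 * d + 2 ≤ P.card := by omega
    have hNge' : 2 * (d : ℝ) + 2 ≤ P.card := by exact_mod_cast hNge
    have e3 : ∑ h ∈ range (2 + 2), (w.choose h : ℝ) * (cnt G P (2 + 1 - h) : ℝ) =
        cnt G P 3 + w * cnt G P 2 + w.choose 2 * P.card + w.choose 3 := by
      rw [Finset.sum_range_succ, Finset.sum_range_succ, Finset.sum_range_succ,
        Finset.sum_range_succ, Finset.sum_range_zero]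
      simp [cnt_one, cnt_zero]
    rw [e3]
    have hwd' : (w : ℝ) ≤ d := by exact_mod_cast hwd
    have hw2' : (2 : ℝ) ≤ w := by exact_mod_cast hw2
    have c2 : 2 * (w.choose 2 : ℝ) = w * (w - 1) := by
      rw [Nat.cast_choose_two]; ring
    have c3 : 6 * (w.choose 3 : ℝ) = w * (w - 1) * (w - 2) := by
      have h := Nat.cast_choose_eq_ascPochhammer_div ℝ w 3
      have h4 : 3 * w.choose 3 = w.choose 2 * (w - 2) := by
        have := Nat.choose_succ_right_eq w 2
        linarith
      have h5 : 3 * (w.choose 3 : ℝ) = w.choose 2 * (w - 2) := by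
        have : ((3 * w.choose 3 : ℕ) : ℝ) = ((w.choose 2 * (w - 2) : ℕ) : ℝ) := by rw [h4]
        rw [Nat.cast_mul, Nat.cast_mul, Nat.cast_sub hw2] at this
        push_cast at this
        exact this
      nlinarith
    push_cast at hup'
    norm_num at hup'
    set N : ℝ := (P.card : ℝ) with hNdef
    set E : ℝ := (ed G P P : ℝ) with hEdef
    set i2 : ℝ := (cnt G P 2 : ℝ) with hi2
    set i3 : ℝ := (cnt G P 3 : ℝ) with hi3
    -- i3 ≤ (N-2)/3 i2
    have hi2e : i2 = (N * N - N - E) / 2 := by linarith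
    have hi2ge : N * (N - 1 - d) / 2 ≤ i2 := by rw [hi2e]; nlinarith
    have hgoal : 3 * (w * (w - 1)) * N + w * (w - 1) * (w - 2) ≤ 2 * (N + 1) * (N * (N - 1 - d)) :=
      k3_poly d w N (by exact_mod_cast hd) hw2' hwd' hNge'
    have hi3le : 3 * i3 ≤ (N - 2) * i2 := by linarith
    exact k3_fin w N d i2 i3 _ _ (by linarith) hi2ge hi3le c2 c3 hgoal

end Pool.Agent.Lib.MP_99e3ed_co.H87
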